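import Pool.Agent.Run7.h860.Ns.Loc

/-!
The product of the leading coefficient and the roots of absolute value at least one is bounded by
the coefficients; roots as a function on `Fin d`.
-/

set_option autoImplicit false

open Finset Polynomial

namespace Pool.Agent.Run7.h860.Ns

variable {K : Type} [NormedField K]

theorem coeff_lin_mul (z : K) (h : K[X]) (j : ℕ) :
    ((X - C z) * h).coeff (j + 1) = h.coeff j - z * h.coeff (j + 1) := by
  rw [sub_mul, coeff_sub, coeff_X_mul, coeff_C_mul]

theorem coeff_lin_mul_zero (z : K) (h : K[X]) : ((X - C z) * h).coeff 0 = -(z * h.coeff 0) := by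
  rw [sub_mul, coeff_sub, coeff_X_mul_zero, coeff_C_mul, zero_sub]

theorem factor_le (n : ℕ) (z : K) (h : K[X]) (hn : h.natDegree ≤ n) (M : ℝ)
    (hM : ∀ j, ‖((X - C z) * h).coeff j‖ ≤ M) (j : ℕ) :
    max 1 ‖z‖ * ‖h.coeff j‖ ≤ (n + 1) * M := by
  have hM0 : 0 ≤ M := (norm_nonneg _).trans (hM 0)
  rcases le_total ‖z‖ 1 with hz | hz
  · rw [max_eq_left hz, one_mul]
    have key : ∀ i j : ℕ, n + 1 ≤ i + j → ‖h.coeff j‖ ≤ i * M := by
      intro i
      induction i with
      | zero =>
        intro j hj
        rw [coeff_eq_zero_of_natDegree_lt (by omega)]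
        simp
      | succ i ih =>
        intro j hj
        have h1 := ih (j + 1) (by omega)
        have h2 : h.coeff j = ((X - C z) * h).coeff (j + 1) + z * h.coeff (j + 1) := by
          rw [coeff_lin_mul]; ring
        rw [h2]
        refine (norm_add_le _ _).trans ?_
        rw [norm_mul]
        have h3 : ‖z‖ * ‖h.coeff (j + 1)‖ ≤ 1 * (i * M) :=
          mul_le_mul hz h1 (norm_nonneg _) zero_le_one
        have := hM (j + 1)
        push_cast
        linarith
    have := key (n + 1) j (by omega)
    push_cast at this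
    exact this
  · rw [max_eq_right hz]
    have hz0 : 0 < ‖z‖ := by linarith
    have key : ∀ j : ℕ, ‖z‖ * ‖h.coeff j‖ ≤ (j + 1) * M := by
      intro j
      induction j with
      | zero =>
        have h1 := hM 0
        rw [coeff_lin_mul_zero, norm_neg, norm_mul] at h1
        simpa using h1
      | succ j ih =>
        have h2 : z * h.coeff (j + 1) = h.coeff j - ((X - C z) * h).coeff (j + 1) := by
          rw [coeff_lin_mul]; ring
        rw [← norm_mul, h2]
        refine (norm_sub_le _ _).trans ?_
        have h3 : ‖h.coeff j‖ ≤ ‖z‖ * ‖h.coeff j‖ := le_mul_of_one_le_left (norm_nonneg _) hz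
        have := hM (j + 1)
        push_cast
        linarith
    by_cases hj : j ≤ n
    · refine (key j).trans ?_
      have : (j : ℝ) ≤ n := by exact_mod_cast hj
      nlinarith
    · rw [coeff_eq_zero_of_natDegree_lt (by omega), norm_zero, mul_zero]
      positivity

theorem natDegree_prod_X_sub_C_le {ι : Type} (T : Finset ι) (A : K) (z : ι → K) :
    (C A * ∏ i ∈ T, (X - C (z i))).natDegree ≤ T.card := by
  refine (natDegree_C_mul_le _ _).trans ((natDegree_prod_le _ _).trans ?_)
  simp

theorem mh_le {ι : Type} (n : ℕ) (T : Finset ι) (hT : T.card ≤ n) (A : K) (z : ι → K) (M : ℝ)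
    (hM : ∀ j, ‖(C A * ∏ i ∈ T, (X - C (z i))).coeff j‖ ≤ M) :
    ‖A‖ * ∏ i ∈ T, max 1 ‖z i‖ ≤ ((n : ℝ) + 1) ^ T.card * M := by
  classical
  induction T using Finset.induction_on generalizing M with
  | empty =>
    have := hM 0
    simpa using this
  | insert a T ha ih =>
    rw [Finset.card_insert_of_notMem ha] at hT
    have hm0 : 0 < max 1 ‖z a‖ := lt_max_of_lt_left one_pos
    have h1 : ∀ j, ‖(C A * ∏ i ∈ T, (X - C (z i))).coeff j‖ ≤ (n + 1) * M / max 1 ‖z a‖ := by
      intro j
      rw [le_div_iff₀ hm0, mul_comm]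
      refine factor_le n (z a) (C A * ∏ i ∈ T, (X - C (z i)))
        ((natDegree_prod_X_sub_C_le T A z).trans (by omega)) M (fun j => ?_) j
      have h2 := hM j
      rw [Finset.prod_insert ha] at h2
      have h3 : (X - C (z a)) * (C A * ∏ i ∈ T, (X - C (z i))) =
          C A * ((X - C (z a)) * ∏ i ∈ T, (X - C (z i))) := by ring
      rw [h3]
      exact h2
    have h4 := ih (by omega) _ h1
    rw [Finset.prod_insert ha, Finset.card_insert_of_notMem ha]
    calc ‖A‖ * (max 1 ‖z a‖ * ∏ i ∈ T, max 1 ‖z i‖) =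
          max 1 ‖z a‖ * (‖A‖ * ∏ i ∈ T, max 1 ‖z i‖) := by ring
      _ ≤ max 1 ‖z a‖ * (((n : ℝ) + 1) ^ T.card * ((n + 1) * M / max 1 ‖z a‖)) :=
          mul_le_mul_of_nonneg_left h4 hm0.le
      _ = ((n : ℝ) + 1) ^ (T.card + 1) * M := by
          field_simp
          ring

/-- the roots as a function on `Fin d` -/
theorem exists_roots {F : Type} [Field F] [IsAlgClosed F] (f : F[X]) :
    ∃ z : Fin f.natDegree → F, f = C f.leadingCoeff * ∏ i, (X - C (z i)) ∧
      f.roots = (Finset.univ : Finset (Fin f.natDegree)).val.map z := by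
  have h1 := IsAlgClosed.splits f
  have h2 := h1.natDegree_eq_card_roots
  obtain ⟨l, hl⟩ : ∃ l : List F, (l : Multiset F) = f.roots := ⟨_, Multiset.coe_toList _⟩
  have h3 : f.natDegree = l.length := by rw [h2, ← hl, Multiset.coe_card]
  refine ⟨fun i => l.get (i.cast h3), ?_, ?_⟩
  · have h4 := h1.eq_prod_roots
    conv_lhs => rw [h4]
    congr 1
    rw [← hl, Multiset.map_coe, Multiset.prod_coe]
    rw [← List.prod_ofFn]
    congr 1
    apply List.ext_get
    · simp [h3]
    · intro m h5 h6
      simp
  · rw [Fin.univ_val_map, ← hl]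
    congr 1
    apply List.ext_get
    · simp [h3]
    · intro m h5 h6
      simp

end Pool.Agent.Run7.h860.Ns
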