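import Pool.Agent.Run7.h860.Ns.Ph
import Pool.Agent.TH461.SST.Stms

/-!
A second lattice vector: if the vectors `x_t` of a sequence are pairwise not proportional, then some
box around one of the `x_t` (enlarged by the factor `exp (γ N_t)` at the real place) contains a
lattice vector which is not proportional to `x_t`.
-/

set_option autoImplicit false

open Finset Filter Topology

namespace Pool.Agent.Run7.h860.Ns

open Pool.Agent.TH461.SST (SubspaceStmt Places Size Sol)

/-- `y` is a rational multiple of `x` -/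
def Par {n : ℕ} (y x : Fin n → ℤ) : Prop := ∃ p q : ℤ, q ≠ 0 ∧ q • y = p • x

theorem pigeon_freq {T : Type} [Finite T] (f : ℕ → T) : ∃ c, ∃ᶠ t in atTop, f t = c := by
  by_contra h
  push Not at h
  have h1 : ∀ c, ∀ᶠ t in atTop, f t ≠ c := h
  have h2 := (Filter.eventually_all.2 h1).exists
  obtain ⟨t, ht⟩ := h2
  exact ht (f t) rfl

theorem ap_add {n : ℕ} (f y z : Fin n → ℤ) : ap f (y + z) = ap f y + ap f z := by
  simp only [ap, Pi.add_apply, mul_add, Finset.sum_add_distrib]

theorem ap_sum {n : ℕ} {ι : Type} (s : Finset ι) (f : Fin n → ℤ) (y : ι → Fin n → ℤ) :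
    ap f (∑ i ∈ s, y i) = ∑ i ∈ s, ap f (y i) := by
  classical
  induction s using Finset.induction_on with
  | empty => simp [ap_zero]
  | insert a s ha ih => rw [Finset.sum_insert ha, ap_add, ih, Finset.sum_insert ha]

/-- the statement for vectors with `n` coordinates -/
def Stmt (n : ℕ) : Prop :=
  ∀ (ι : Type) [Fintype ι] (φ : ι → Fin n → ℤ)
    (_ : ∀ y : Fin n → ℤ, (∀ i, ap (φ i) y = 0) → y = 0)
    (s : ℕ) (b : Fin s → ℕ) (_ : ∀ v, 2 ≤ b v) (_ : ∀ v v', v ≠ v' → Nat.Coprime (b v) (b v'))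
    (c γ κ : ℝ) (_ : 1 ≤ c) (_ : 0 < γ) (_ : 0 < κ) (N : ℕ → ℝ) (_ : Tendsto N atTop atTop)
    (A : ℕ → ι → ℝ) (e : ℕ → Fin s → ι → ℕ) (x : ℕ → Fin n → ℤ)
    (_ : ∀ t i, 1 ≤ A t i) (_ : ∀ t i, Real.log (A t i) ≤ c * N t)
    (_ : ∀ t v i, (e t v i : ℝ) * Real.log (b v) ≤ c * N t)
    (_ : ∀ t i, |((ap (φ i) (x t) : ℤ) : ℝ)| ≤ A t i)
    (_ : ∀ t v i, (b v : ℤ) ^ (e t v i) ∣ ap (φ i) (x t))
    (_ : ∀ t, ∃ i, κ * A t i ≤ |((ap (φ i) (x t) : ℤ) : ℝ)|)
    (_ : ∀ t y, Par y (x t) → ∃ m : ℤ, y = m • x t)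
    (_ : ∀ t, x t ≠ 0) (_ : ∀ t t', t ≠ t' → ¬ Par (x t) (x t')),
    ∃ t, ∃ y : Fin n → ℤ, ¬ Par y (x t) ∧
      (∀ i, |((ap (φ i) y : ℤ) : ℝ)| ≤ Real.exp (γ * N t) * A t i) ∧
      ∀ v i, (b v : ℤ) ^ (e t v i) ∣ ap (φ i) y

theorem at_main (hsub : SubspaceStmt) (n : ℕ) : Stmt n := by
  induction n using Nat.strong_induction_on with
  | _ n IH =>
  intro ι _ φ hsp s b hb hcop c γ κ hc hγ hκ N hN A e x hA1 hA2 he hxA hxe htight hprim hne hdist
  classical
  by_contra hno
  push Not at hno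
  have h0 : ∀ t (y : Fin n → ℤ), (∀ i, |((ap (φ i) y : ℤ) : ℝ)| ≤ Real.exp (γ * N t) * A t i) →
      (∀ v i, (b v : ℤ) ^ (e t v i) ∣ ap (φ i) y) → Par y (x t) := by
    intro t y h1 h2
    by_contra h3
    obtain ⟨v, i, h4⟩ := hno t y h3 h1
    exact h4 (h2 v i)
  -- small dimensions
  rcases Nat.lt_or_ge n 2 with hn2 | hn2
  · interval_cases n
    · exact hne 0 (funext fun j => j.elim0)
    · apply hdist 0 1 (by norm_num)
      refine ⟨x 0 0, x 1 0, ?_, ?_⟩
      · intro h
        apply hne 1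
        funext j
        rw [Subsingleton.elim j 0, h]
        rfl
      · funext j
        rw [Subsingleton.elim j 0]
        simp only [Pi.smul_apply, smul_eq_mul]
        ring
  -- minimal bases at each place
  have hgr0 := fun t => greedy φ hsp (fun i => Real.log (A t i))
  have hgrv := fun t (v : Fin s) => greedy φ hsp (fun i => -(e t v i : ℝ))
  choose β0 hβ0 hmin0 using hgr0
  choose βv hβv hminv using hgrv
  obtain ⟨⟨B0, Bv⟩, hfreq⟩ := pigeon_freq (fun t => (β0 t, βv t))
  -- the matrices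
  let M0 : Matrix (Fin n) (Fin n) ℤ := Matrix.of fun l => φ (B0 l)
  let M : Fin s → Matrix (Fin n) (Fin n) ℤ := fun v => Matrix.of fun l => φ (Bv v l)
  obtain ⟨K, hK0, hK⟩ := pigeon (fun l => φ (B0 l)) (fun v l => φ (Bv v l))
  have hex : ∃ t, (β0 t, βv t) = (B0, Bv) := hfreq.exists
  have hM0 : M0.det ≠ 0 := by
    obtain ⟨t, ht⟩ := hex
    have h1 : β0 t = B0 := congrArg Prod.fst ht
    have := hβ0 t
    rw [h1] at this
    exact this
  have hMv : ∀ v, (M v).det ≠ 0 := by
    obtain ⟨t, ht⟩ := hex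
    have h1 : βv t = Bv := congrArg Prod.snd ht
    intro v
    have := hβv t v
    rw [h1] at this
    exact this
  -- bound for the coefficients
  set Cm : ℝ := 1 + ∑ i, ∑ l, |((M0.updateRow l (φ i)).det : ℝ)| with hCm
  have hCm1 : 1 ≤ Cm := by
    have : 0 ≤ ∑ i, ∑ l, |((M0.updateRow l (φ i)).det : ℝ)| :=
      Finset.sum_nonneg fun l _ => Finset.sum_nonneg fun j _ => abs_nonneg _
    linarith
  have hCmle : ∀ i, ∑ l, |((M0.updateRow l (φ i)).det : ℝ)| ≤ Cm := by
    intro i
    have h3 : ∑ l, |((M0.updateRow l (φ i)).det : ℝ)| ≤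
        ∑ i, ∑ l, |((M0.updateRow l (φ i)).det : ℝ)| :=
      Finset.single_le_sum (f := fun i => ∑ l, |((M0.updateRow l (φ i)).det : ℝ)|)
        (fun i _ => Finset.sum_nonneg fun j _ => abs_nonneg _) (Finset.mem_univ i)
    linarith
  set P : ℤ := ∏ v, (M v).det with hP
  have hP0 : P ≠ 0 := Finset.prod_ne_zero_iff.2 fun v _ => hMv v
  have hPabs : (1 : ℝ) ≤ |(P : ℝ)| := by
    have : (1 : ℤ) ≤ |P| := Int.one_le_abs hP0
    exact_mod_cast this
  have hD0abs : (1 : ℝ) ≤ |(M0.det : ℝ)| := by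
    have : (1 : ℤ) ≤ |M0.det| := Int.one_le_abs hM0
    exact_mod_cast this
  set κ0 : ℝ := min κ 1 with hκ0
  have hκ00 : 0 < κ0 := lt_min hκ one_pos
  set κ' : ℝ := κ0 / (2 * Cm) with hκ'
  have hκ'0 : 0 < κ' := by positivity
  have hκ'1 : κ' ≤ 1 := by
    rw [hκ', div_le_one (by positivity)]
    have : κ0 ≤ 1 := min_le_right _ _
    linarith
  -- the size condition
  have hlarge : ∀ᶠ t in atTop, 0 ≤ N t ∧ Real.log K - Real.log κ' + 1 ≤ γ / 4 * N t ∧
      Real.log (|(P : ℝ)| * Cm) ≤ γ / 2 * N t := by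
    have h1 := hN.eventually_ge_atTop 0
    have h2 := (hN.const_mul_atTop (by positivity : 0 < γ / 4)).eventually_ge_atTop
      (Real.log K - Real.log κ' + 1)
    have h3 := (hN.const_mul_atTop (by positivity : 0 < γ / 2)).eventually_ge_atTop
      (Real.log (|(P : ℝ)| * Cm))
    filter_upwards [h1, h2, h3] with t a b c using ⟨a, b, c⟩
  have hsize : ∀ t, (β0 t, βv t) = (B0, Bv) → 0 ≤ N t →
      Real.log K - Real.log κ' + 1 ≤ γ / 4 * N t →
      Real.log (|(P : ℝ)| * Cm) ≤ γ / 2 * N t →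
      ∑ l, Real.log (A t (B0 l)) + γ / 4 * N t ≤
        ∑ v, ∑ l, (e t v (Bv v l) : ℝ) * Real.log (b v) := by
    intro t ht hN0 hL1 hL2
    have e1 : β0 t = B0 := congrArg Prod.fst ht
    have e2 : βv t = Bv := congrArg Prod.snd ht
    have hm0 : ∀ i l, (M0.updateRow l (φ i)).det ≠ 0 → A t (B0 l) ≤ A t i := by
      intro i l h
      have := hmin0 t i l
      rw [e1] at this
      have h2 := this h
      have h3 : 0 < A t (B0 l) := lt_of_lt_of_le one_pos (hA1 t _)
      have h4 : 0 < A t i := lt_of_lt_of_le one_pos (hA1 t _)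
      exact (Real.log_le_log_iff h3 h4).1 h2
    have hmv : ∀ v i l, ((M v).updateRow l (φ i)).det ≠ 0 → e t v i ≤ e t v (Bv v l) := by
      intro v i l h
      have := hminv t v i l
      rw [e2] at this
      have h2 := this h
      simp only [neg_le_neg_iff] at h2
      exact_mod_cast h2
    by_contra hlt
    push Not at hlt
    -- the tight form
    obtain ⟨i, hi⟩ := htight t
    have hl0 : ∃ l0, κ' * A t (B0 l0) ≤ |((ap (φ (B0 l0)) (x t) : ℤ) : ℝ)| := by
      by_contra hcon
      push Not at hcon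
      have h1 := cramer_id M0 (φ i) (x t)
      have h2 : |(M0.det : ℝ)| * |((ap (φ i) (x t) : ℤ) : ℝ)| ≤
          ∑ l, |((M0.updateRow l (φ i)).det : ℝ)| * (κ' * A t i) := by
        rw [← abs_mul, ← Int.cast_mul, h1, Int.cast_sum]
        refine (Finset.abs_sum_le_sum_abs _ _).trans (Finset.sum_le_sum fun l _ => ?_)
        rw [Int.cast_mul, abs_mul]
        by_cases hz : (M0.updateRow l (φ i)).det = 0
        · rw [hz]; simp
        · refine mul_le_mul_of_nonneg_left ?_ (abs_nonneg _)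
          exact (hcon l).le.trans (mul_le_mul_of_nonneg_left (hm0 i l hz) hκ'0.le)
      rw [← Finset.sum_mul] at h2
      have hAi : 0 < A t i := lt_of_lt_of_le one_pos (hA1 t i)
      have h3 : κ * A t i ≤ |(M0.det : ℝ)| * |((ap (φ i) (x t) : ℤ) : ℝ)| := by
        have := abs_nonneg ((ap (φ i) (x t) : ℤ) : ℝ)
        nlinarith
      have h4 : (∑ l, |((M0.updateRow l (φ i)).det : ℝ)|) * (κ' * A t i) ≤ κ0 / 2 * A t i := by
        have h5 : Cm * κ' = κ0 / 2 := by
          rw [hκ']
          field_simp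
        calc (∑ l, |((M0.updateRow l (φ i)).det : ℝ)|) * (κ' * A t i) ≤ Cm * (κ' * A t i) :=
              mul_le_mul_of_nonneg_right (hCmle i) (by positivity)
          _ = κ0 / 2 * A t i := by rw [← mul_assoc, h5]
      have h6 : κ0 ≤ κ := min_le_left _ _
      nlinarith
    obtain ⟨l0, hl0⟩ := hl0
    -- the sides of the box
    let a : Fin n → ℝ := fun l =>
      if l = l0 then κ' * A t (B0 l) else Real.exp (γ / 2 * N t) * A t (B0 l)
    have hApos : ∀ i, 0 < A t i := fun i => lt_of_lt_of_le one_pos (hA1 t i)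
    have ha0 : ∀ l, 0 < a l := by
      intro l
      simp only [a]
      split_ifs
      · exact mul_pos hκ'0 (hApos _)
      · exact mul_pos (Real.exp_pos _) (hApos _)
    have hale : ∀ l, a l ≤ Real.exp (γ / 2 * N t) * A t (B0 l) := by
      intro l
      simp only [a]
      split_ifs
      · refine mul_le_mul_of_nonneg_right ?_ (hApos _).le
        exact hκ'1.trans (Real.one_le_exp (by positivity))
      · exact le_rfl
    have hlogprod : ∑ l, Real.log (a l) = Real.log κ' + ((n : ℝ) - 1) * (γ / 2 * N t) +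
        ∑ l, Real.log (A t (B0 l)) := by
      rw [← Finset.add_sum_erase _ _ (Finset.mem_univ l0),
        ← Finset.add_sum_erase _ (fun l => Real.log (A t (B0 l))) (Finset.mem_univ l0)]
      have h1 : Real.log (a l0) = Real.log κ' + Real.log (A t (B0 l0)) := by
        simp only [a, if_pos]
        rw [Real.log_mul hκ'0.ne' (hApos _).ne']
      have h2 : ∑ l ∈ Finset.univ.erase l0, Real.log (a l) =
          ((n : ℝ) - 1) * (γ / 2 * N t) + ∑ l ∈ Finset.univ.erase l0, Real.log (A t (B0 l)) := by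
        have h3 : ∀ l ∈ Finset.univ.erase l0, Real.log (a l) =
            γ / 2 * N t + Real.log (A t (B0 l)) := by
          intro l hl
          simp only [a, if_neg (Finset.ne_of_mem_erase hl)]
          rw [Real.log_mul (Real.exp_pos _).ne' (hApos _).ne', Real.log_exp]
        rw [Finset.sum_congr rfl h3, Finset.sum_add_distrib, Finset.sum_const,
          Finset.card_erase_of_mem (Finset.mem_univ _), Finset.card_univ, Fintype.card_fin,
          nsmul_eq_mul, Nat.cast_sub (by omega), Nat.cast_one]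
      rw [h1, h2]
      ring
    have hbpos : ∀ v, (0 : ℝ) < b v := fun v => by
      have := hb v
      have : 0 < b v := by omega
      exact_mod_cast this
    have hvol : K * ∏ v, ∏ l, (b v : ℝ) ^ (e t v (Bv v l)) ≤ ∏ l, a l := by
      have h1 : 0 < ∏ v, ∏ l, (b v : ℝ) ^ (e t v (Bv v l)) :=
        Finset.prod_pos fun v _ => Finset.prod_pos fun l _ => pow_pos (hbpos v) _
      have h2 : 0 < ∏ l, a l := Finset.prod_pos fun l _ => ha0 l
      rw [← Real.log_le_log_iff (mul_pos hK0 h1) h2, Real.log_mul hK0.ne' h1.ne',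
        Real.log_prod (fun l _ => (ha0 l).ne'), hlogprod,
        Real.log_prod (fun v _ => (Finset.prod_pos fun l _ => pow_pos (hbpos v) _).ne')]
      have h3 : ∑ v, Real.log (∏ l, (b v : ℝ) ^ (e t v (Bv v l))) =
          ∑ v, ∑ l, (e t v (Bv v l) : ℝ) * Real.log (b v) := by
        refine Finset.sum_congr rfl fun v _ => ?_
        rw [Real.log_prod (fun l _ => (pow_pos (hbpos v) _).ne')]
        exact Finset.sum_congr rfl fun l _ => Real.log_pow _ _
      rw [h3]
      have hn' : (2 : ℝ) ≤ n := by exact_mod_cast hn2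
      have h4 : γ / 2 * N t ≤ ((n : ℝ) - 1) * (γ / 2 * N t) := by
        have : 0 ≤ γ / 2 * N t := by positivity
        nlinarith
      linarith
    obtain ⟨y, hy0, hyA, hye⟩ := hK b (fun v => by have := hb v; omega)
      (fun v l => e t v (Bv v l)) a ha0 hvol
    -- the multiple of `y` lies in the large box
    have hpar : Par (P • y) (x t) := by
      apply h0 t
      · intro i
        rw [ap_smul, Int.cast_mul, abs_mul]
        have h1 := cramer_id M0 (φ i) y
        have h2 : |(M0.det : ℝ)| * |((ap (φ i) y : ℤ) : ℝ)| ≤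
            ∑ l, |((M0.updateRow l (φ i)).det : ℝ)| * (Real.exp (γ / 2 * N t) * A t i) := by
          rw [← abs_mul, ← Int.cast_mul, h1, Int.cast_sum]
          refine (Finset.abs_sum_le_sum_abs _ _).trans (Finset.sum_le_sum fun l _ => ?_)
          rw [Int.cast_mul, abs_mul]
          by_cases hz : (M0.updateRow l (φ i)).det = 0
          · rw [hz]; simp
          · refine mul_le_mul_of_nonneg_left ?_ (abs_nonneg _)
            exact (hyA l).le.trans ((hale l).trans
              (mul_le_mul_of_nonneg_left (hm0 i l hz) (Real.exp_pos _).le))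
        rw [← Finset.sum_mul] at h2
        have h3 : |((ap (φ i) y : ℤ) : ℝ)| ≤ Cm * (Real.exp (γ / 2 * N t) * A t i) := by
          calc |((ap (φ i) y : ℤ) : ℝ)| ≤ |(M0.det : ℝ)| * |((ap (φ i) y : ℤ) : ℝ)| :=
                le_mul_of_one_le_left (abs_nonneg _) hD0abs
            _ ≤ _ := h2
            _ ≤ Cm * (Real.exp (γ / 2 * N t) * A t i) :=
                mul_le_mul_of_nonneg_right (hCmle i)
                  (mul_nonneg (Real.exp_pos _).le (hApos i).le)
        have h4 : |(P : ℝ)| * Cm ≤ Real.exp (γ / 2 * N t) := by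
          rw [← Real.log_le_iff_le_exp (by positivity)]
          exact hL2
        have h5 : Real.exp (γ * N t) = Real.exp (γ / 2 * N t) * Real.exp (γ / 2 * N t) := by
          rw [← Real.exp_add]; congr 1; ring
        calc |(P : ℝ)| * |((ap (φ i) y : ℤ) : ℝ)|
            ≤ |(P : ℝ)| * (Cm * (Real.exp (γ / 2 * N t) * A t i)) :=
              mul_le_mul_of_nonneg_left h3 (abs_nonneg _)
          _ = (|(P : ℝ)| * Cm) * (Real.exp (γ / 2 * N t) * A t i) := by ring
          _ ≤ Real.exp (γ / 2 * N t) * (Real.exp (γ / 2 * N t) * A t i) :=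
              mul_le_mul_of_nonneg_right h4 (mul_nonneg (Real.exp_pos _).le (hApos i).le)
          _ = Real.exp (γ * N t) * A t i := by rw [h5]; ring
      · intro v i
        rw [ap_smul]
        have h1 := cramer_id (M v) (φ i) y
        have h2 : (b v : ℤ) ^ (e t v i) ∣ (M v).det * ap (φ i) y := by
          rw [h1]
          refine Finset.dvd_sum fun l _ => ?_
          by_cases hz : ((M v).updateRow l (φ i)).det = 0
          · rw [hz, zero_mul]
            exact dvd_zero _
          · exact Dvd.dvd.mul_left ((pow_dvd_pow _ (hmv v i l hz)).trans (hye v l)) _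
        obtain ⟨q, hq⟩ : (M v).det ∣ P := Finset.dvd_prod_of_mem _ (Finset.mem_univ v)
        rw [hq, mul_assoc, mul_comm q, ← mul_assoc]
        exact Dvd.dvd.mul_right h2 q
    have hpar' : Par y (x t) := by
      obtain ⟨p, q, hq, h⟩ := hpar
      refine ⟨p, q * P, mul_ne_zero hq hP0, ?_⟩
      rw [mul_smul]
      exact h
    obtain ⟨m, hm⟩ := hprim t y hpar'
    have hm0' : m ≠ 0 := by
      rintro rfl
      exact hy0 (by rw [hm, zero_smul])
    have h1 := hyA l0
    rw [hm, ap_smul, Int.cast_mul, abs_mul] at h1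
    have h2 : (1 : ℝ) ≤ |(m : ℝ)| := by
      have : (1 : ℤ) ≤ |m| := Int.one_le_abs hm0'
      exact_mod_cast this
    simp only [a, if_pos] at h1
    have h3 := abs_nonneg ((ap (φ (B0 l0)) (x t) : ℤ) : ℝ)
    nlinarith
  -- a subsequence
  obtain ⟨ψ, hψ, hψP⟩ := extraction_of_frequently_atTop (hfreq.and_eventually hlarge)
  have hNψ : Tendsto (fun k => N (ψ k)) atTop atTop := hN.comp hψ.tendsto_atTop
  obtain ⟨y, hy0, hyf⟩ := hsub n s (by omega) M0 M b ⟨hM0, hMv, hb, hcop⟩ c (γ / 4) hc
    (by positivity) (fun k => N (ψ k)) hNψ (fun k v l => e (ψ k) v (Bv v l))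
    (fun k l => A (ψ k) (B0 l)) (by
      intro k
      obtain ⟨k1, k2, k3, k4⟩ := hψP k
      refine ⟨fun v l => he _ _ _, fun l => lt_of_lt_of_le one_pos (hA1 _ _), ?_,
        hsize (ψ k) k1 k2 k3 k4⟩
      intro l
      rw [abs_of_nonneg (Real.log_nonneg (hA1 _ _))]
      exact hA2 _ _) (fun k => x (ψ k)) (fun k => hne _) (by
      intro k
      exact ⟨fun l => hxA _ _, fun v l => hxe _ _ _⟩)
  obtain ⟨θ, hθ, hθP⟩ := extraction_of_frequently_atTop hyf
  -- restriction to the hyperplane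
  let Lf : (Fin n → ℤ) →ₗ[ℤ] ℤ :=
    { toFun := fun z => ap y z
      map_add' := ap_add y
      map_smul' := fun m z => ap_smul y m z }
  let Kr : Submodule ℤ (Fin n → ℤ) := LinearMap.ker Lf
  have hfr : Module.finrank ℤ Kr < n := by
    have h1 : Module.finrank ℤ (LinearMap.range Lf) + Module.finrank ℤ Kr = n := by
      have h2 := Submodule.finrank_quotient_add_finrank (R := ℤ) (LinearMap.ker Lf)
      rw [Module.finrank_fin_fun, LinearEquiv.finrank_eq Lf.quotKerEquivRange] at h2
      exact h2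
    have h2 : 0 < Module.finrank ℤ (LinearMap.range Lf) := by
      rw [Nat.pos_iff_ne_zero]
      intro h
      obtain ⟨j, hj⟩ := Function.ne_iff.1 hy0
      have h3 : Lf (Pi.single j 1) ≠ 0 := by
        show ap y (Pi.single j 1) ≠ 0
        have : ap y (Pi.single j 1) = y j := by
          unfold ap
          rw [Finset.sum_eq_single j]
          · simp
          · intro j' _ hj'
            simp [Pi.single_eq_of_ne hj']
          · simp
        rw [this]
        exact hj
      have h4 : (⟨Lf (Pi.single j 1), LinearMap.mem_range_self _ _⟩ : LinearMap.range Lf) = 0 := by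
        have h5 : Module.finrank ℤ (LinearMap.range Lf) = 0 := h
        rw [Module.finrank_eq_zero_iff_of_free] at h5
        exact Subsingleton.elim _ _
      exact h3 (congrArg Subtype.val h4)
    omega
  let m := Module.finrank ℤ Kr
  let bK : Module.Basis (Fin m) ℤ Kr := Module.finBasis ℤ Kr
  let up : (Fin m → ℤ) → Fin n → ℤ := fun w => ((∑ j, w j • bK j : Kr) : Fin n → ℤ)
  have hup : ∀ w, up w = ∑ j, w j • (bK j : Fin n → ℤ) := by
    intro w
    simp only [up, Submodule.coe_sum, Submodule.coe_smul]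
  have hap : ∀ (f : Fin n → ℤ) (w : Fin m → ℤ),
      ap (fun j => ap f (bK j : Fin n → ℤ)) w = ap f (up w) := by
    intro f w
    rw [hup, ap_sum]
    show ∑ j, ap f (bK j : Fin n → ℤ) * w j = _
    refine Finset.sum_congr rfl fun j _ => ?_
    rw [ap_smul]
    ring
  have hmem : ∀ k, x (ψ (θ k)) ∈ Kr := by
    intro k
    exact hθP k
  let w : ℕ → Fin m → ℤ := fun k => bK.equivFun ⟨x (ψ (θ k)), hmem k⟩
  have hw : ∀ k, up (w k) = x (ψ (θ k)) := by
    intro k
    have := bK.sum_equivFun ⟨x (ψ (θ k)), hmem k⟩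
    exact congrArg Subtype.val this
  have hinj : ∀ w w' : Fin m → ℤ, up w = up w' → w = w' := by
    intro w w' h
    have h1 : (∑ j, w j • bK j : Kr) = ∑ j, w' j • bK j := Subtype.ext h
    have h2 := congrArg bK.equivFun h1
    rwa [← Module.Basis.equivFun_symm_apply, ← Module.Basis.equivFun_symm_apply,
      LinearEquiv.apply_symm_apply, LinearEquiv.apply_symm_apply] at h2
  have hupsmul : ∀ (q : ℤ) (w : Fin m → ℤ), up (q • w) = q • up w := by
    intro q w
    rw [hup, hup, Finset.smul_sum]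
    refine Finset.sum_congr rfl fun j _ => ?_
    rw [Pi.smul_apply, smul_eq_mul, mul_smul]
  have hParup : ∀ w w' : Fin m → ℤ, Par w w' ↔ Par (up w) (up w') := by
    intro w w'
    constructor
    · rintro ⟨p, q, hq, h⟩
      exact ⟨p, q, hq, by rw [← hupsmul, ← hupsmul, h]⟩
    · rintro ⟨p, q, hq, h⟩
      exact ⟨p, q, hq, hinj _ _ (by rw [hupsmul, hupsmul, h])⟩
  have hκt : Tendsto (fun k => ψ (θ k)) atTop atTop := hψ.tendsto_atTop.comp hθ.tendsto_atTop
  obtain ⟨k, z, hz1, hz2, hz3⟩ := IH m hfr ι (fun i j => ap (φ i) (bK j : Fin n → ℤ)) (by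
      intro w' hw'
      apply hinj
      have h1 : up w' = 0 := hsp _ fun i => by rw [← hap]; exact hw' i
      have h2 : up 0 = 0 := by rw [hup]; simp
      rw [h1, h2]) s b hb hcop c γ κ hc hγ hκ (fun k => N (ψ (θ k))) (hN.comp hκt)
    (fun k => A (ψ (θ k))) (fun k => e (ψ (θ k))) w (fun k i => hA1 _ _) (fun k i => hA2 _ _)
    (fun k v i => he _ _ _) (fun k i => by rw [hap, hw]; exact hxA _ _)
    (fun k v i => by rw [hap, hw]; exact hxe _ _ _) (fun k => by
      obtain ⟨i, hi⟩ := htight (ψ (θ k))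
      exact ⟨i, by rw [hap, hw]; exact hi⟩) (fun k w' hw' => by
      rw [hParup, hw] at hw'
      obtain ⟨q, hq⟩ := hprim _ _ hw'
      refine ⟨q, hinj _ _ ?_⟩
      rw [hq, hupsmul, hw]) (fun k h => by
      apply hne (ψ (θ k))
      rw [← hw, h, hup]
      simp) (fun k k' hkk' => by
      rw [hParup, hw, hw]
      exact hdist _ _ fun h => hkk' (hθ.injective (hψ.injective h)))
  apply hz1
  rw [hParup, hw]
  exact h0 _ _ (fun i => by rw [← hap]; exact hz2 i) (fun v i => by rw [← hap]; exact hz3 v i)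

end Pool.Agent.Run7.h860.Ns
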