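import Mathlib

/-!
Integral linear forms: pigeonhole principle (Minkowski's theorem with one archimedean place and
finitely many moduli), minimal bases of a finite family of linear forms, Cramer's rule.
-/

set_option autoImplicit false

open Finset

namespace Pool.Agent.Run7.h860.Ns

/-- the value of the linear form `f` at `y` -/
def ap {n : ℕ} (f y : Fin n → ℤ) : ℤ := ∑ j, f j * y j

theorem ap_sub {n : ℕ} (f y z : Fin n → ℤ) : ap f (y - z) = ap f y - ap f z := by
  simp only [ap, Pi.sub_apply, mul_sub, Finset.sum_sub_distrib]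

theorem ap_smul {n : ℕ} (f : Fin n → ℤ) (m : ℤ) (y : Fin n → ℤ) : ap f (m • y) = m * ap f y := by
  simp only [ap, Pi.smul_apply, smul_eq_mul, Finset.mul_sum]
  exact Finset.sum_congr rfl fun j _ => by ring

theorem ap_zero {n : ℕ} (f : Fin n → ℤ) : ap f 0 = 0 := by simp [ap]

theorem pigeon {n s : ℕ} (M0 : Fin n → Fin n → ℤ) (M : Fin s → Fin n → Fin n → ℤ) :
    ∃ K : ℝ, 0 < K ∧ ∀ (b : Fin s → ℕ) (_ : ∀ v, 1 ≤ b v) (e : Fin s → Fin n → ℕ) (a : Fin n → ℝ),
      (∀ l, 0 < a l) → K * ∏ v, ∏ l, (b v : ℝ) ^ (e v l) ≤ ∏ l, a l →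
      ∃ y : Fin n → ℤ, y ≠ 0 ∧ (∀ l, |((ap (M0 l) y : ℤ) : ℝ)| < a l) ∧
        ∀ v l, (b v : ℤ) ^ (e v l) ∣ ap (M v l) y := by
  classical
  set C0 : ℝ := 1 + ∑ l, ∑ j, |(M0 l j : ℝ)| with hC0
  have hC01 : 1 ≤ C0 := by
    have : 0 ≤ ∑ l, ∑ j, |(M0 l j : ℝ)| :=
      Finset.sum_nonneg fun l _ => Finset.sum_nonneg fun j _ => abs_nonneg _
    linarith
  refine ⟨2 * (4 * C0) ^ n, by positivity, ?_⟩
  intro b hb e a ha hvol
  obtain ⟨X, hX⟩ := exists_nat_ge (1 + ∑ l, a l)
  have hXa : ∀ l, a l ≤ X := by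
    intro l
    have : a l ≤ ∑ l, a l := Finset.single_le_sum (fun i _ => (ha i).le) (Finset.mem_univ l)
    linarith
  have hX1 : (1 : ℝ) ≤ X := by
    have : 0 ≤ ∑ l, a l := Finset.sum_nonneg fun i _ => (ha i).le
    linarith
  let m : Fin n → ℕ := fun l => ⌊2 * C0 * X / a l⌋₊
  have hne : ∀ v l, NeZero (b v ^ e v l) := fun v l => ⟨pow_ne_zero _ (by have := hb v; omega)⟩
  -- the values at the points of the cube
  let zz : (Fin n → Fin (X + 1)) → Fin n → ℤ := fun z j => ((z j : ℕ) : ℤ)
  have hval : ∀ (z : Fin n → Fin (X + 1)) (l : Fin n),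
      0 ≤ ((ap (M0 l) (zz z) : ℤ) : ℝ) + C0 * X ∧
        ((ap (M0 l) (zz z) : ℤ) : ℝ) + C0 * X ≤ 2 * C0 * X := by
    intro z l
    have h1 : |((ap (M0 l) (zz z) : ℤ) : ℝ)| ≤ C0 * X := by
      unfold ap
      push_cast
      calc |∑ j, (M0 l j : ℝ) * (zz z j : ℝ)| ≤ ∑ j, |(M0 l j : ℝ) * (zz z j : ℝ)| :=
            Finset.abs_sum_le_sum_abs _ _
        _ ≤ ∑ j, |(M0 l j : ℝ)| * X := by
            refine Finset.sum_le_sum fun j _ => ?_
            rw [abs_mul]
            refine mul_le_mul_of_nonneg_left ?_ (abs_nonneg _)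
            have h2 : ((zz z j : ℤ) : ℝ) = ((z j : ℕ) : ℝ) := by simp [zz]
            rw [h2, abs_of_nonneg (Nat.cast_nonneg _)]
            have := (z j).2
            exact_mod_cast Nat.lt_succ_iff.1 this
        _ = (∑ j, |(M0 l j : ℝ)|) * X := by rw [Finset.sum_mul]
        _ ≤ C0 * X := by
            refine mul_le_mul_of_nonneg_right ?_ (by linarith)
            have h3 : ∑ j, |(M0 l j : ℝ)| ≤ ∑ l, ∑ j, |(M0 l j : ℝ)| :=
              Finset.single_le_sum (f := fun l => ∑ j, |(M0 l j : ℝ)|)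
                (fun i _ => Finset.sum_nonneg fun j _ => abs_nonneg _) (Finset.mem_univ l)
            linarith
    have h2 := abs_le.1 h1
    constructor <;> linarith [h2.1, h2.2]
  let F : (Fin n → Fin (X + 1)) →
      ((l : Fin n) → Fin (m l + 1)) × ((v : Fin s) → (l : Fin n) → ZMod (b v ^ e v l)) := fun z =>
    (fun l => ⟨⌊(((ap (M0 l) (zz z) : ℤ) : ℝ) + C0 * X) / a l⌋₊, by
      refine Nat.lt_succ_of_le (Nat.floor_le_floor ?_)
      exact div_le_div_of_nonneg_right (hval z l).2 (ha l).le⟩,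
      fun v l => ((ap (M v l) (zz z) : ℤ) : ZMod (b v ^ e v l)))
  have hcard : Fintype.card (((l : Fin n) → Fin (m l + 1)) ×
      ((v : Fin s) → (l : Fin n) → ZMod (b v ^ e v l))) < Fintype.card (Fin n → Fin (X + 1)) := by
    rw [Fintype.card_prod, Fintype.card_pi, Fintype.card_fun, Fintype.card_fin, Fintype.card_fin]
    simp only [Fintype.card_pi, Fintype.card_fin, ZMod.card]
    have h1 : ((∏ l, (m l + 1 : ℕ) : ℕ) : ℝ) ≤ (4 * C0) ^ n * (X : ℝ) ^ n / ∏ l, a l := by
      push_cast
      have h2 : ∀ l ∈ (Finset.univ : Finset (Fin n)), ((m l : ℝ) + 1) ≤ 4 * C0 * X / a l := by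
        intro l _
        have h3 : (m l : ℝ) ≤ 2 * C0 * X / a l := Nat.floor_le (by
          have := ha l
          positivity)
        have h4 : 1 ≤ 2 * C0 * X / a l := by
          rw [le_div_iff₀ (ha l)]
          have := hXa l
          nlinarith
        have h5 : 4 * C0 * X / a l = 2 * C0 * X / a l + 2 * C0 * X / a l := by ring
        linarith
      refine (Finset.prod_le_prod (fun l _ => by positivity) h2).trans (le_of_eq ?_)
      rw [Finset.prod_div_distrib, Finset.prod_const, Finset.card_univ, Fintype.card_fin, mul_pow]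
    have hpa : 0 < ∏ l, a l := Finset.prod_pos fun l _ => ha l
    have h3 : (((∏ l, (m l + 1)) * ∏ v, ∏ l, b v ^ e v l : ℕ) : ℝ) < (((X + 1) ^ n : ℕ) : ℝ) := by
      push_cast
      push_cast at h1
      calc (∏ l, ((m l : ℝ) + 1)) * ∏ v, ∏ l, (b v : ℝ) ^ e v l
          ≤ ((4 * C0) ^ n * (X : ℝ) ^ n / ∏ l, a l) * ((∏ l, a l) / (2 * (4 * C0) ^ n)) := by
            refine mul_le_mul h1 ?_ (by positivity) (by positivity)
            rw [le_div_iff₀ (by positivity)]
            linarith
        _ = (X : ℝ) ^ n / 2 := by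
            field_simp
        _ < (X : ℝ) ^ n := by
            have : 0 < (X : ℝ) ^ n := by positivity
            linarith
        _ ≤ ((X : ℝ) + 1) ^ n := by gcongr; linarith
    exact_mod_cast h3
  obtain ⟨z, z', hzz, hF⟩ := Fintype.exists_ne_map_eq_of_card_lt F hcard
  refine ⟨zz z - zz z', ?_, ?_, ?_⟩
  · intro h
    apply hzz
    funext j
    have h1 := congrFun h j
    simp only [zz, Pi.sub_apply, Pi.zero_apply] at h1
    exact Fin.ext (by omega)
  · intro l
    have h1 := congrArg Prod.fst hF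
    have h2 := congrFun h1 l
    simp only [F, Fin.mk.injEq] at h2
    rw [ap_sub]
    push_cast
    set u : ℝ := (((ap (M0 l) (zz z) : ℤ) : ℝ) + C0 * X) / a l with hu
    set w : ℝ := (((ap (M0 l) (zz z') : ℤ) : ℝ) + C0 * X) / a l with hw
    have hu0 : 0 ≤ u := div_nonneg (hval z l).1 (ha l).le
    have hw0 : 0 ≤ w := div_nonneg (hval z' l).1 (ha l).le
    have h3 := Nat.floor_le hu0
    have h4 := Nat.floor_le hw0
    have h5 := Nat.lt_floor_add_one u
    have h6 := Nat.lt_floor_add_one w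
    rw [h2] at h3 h5
    have h7 : |u - w| < 1 := by rw [abs_lt]; constructor <;> linarith
    have h8 : ((ap (M0 l) (zz z) : ℤ) : ℝ) - ((ap (M0 l) (zz z') : ℤ) : ℝ) = (u - w) * a l := by
      have := (ha l).ne'
      rw [hu, hw]
      field_simp
      ring
    rw [h8, abs_mul, abs_of_pos (ha l)]
    have := ha l
    nlinarith
  · intro v l
    have h1 := congrArg Prod.snd hF
    have h2 := congrFun (congrFun h1 v) l
    simp only [F] at h2
    rw [ap_sub, ← dvd_neg, neg_sub]
    have h3 := (ZMod.intCast_eq_intCast_iff_dvd_sub _ _ _).1 h2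
    exact_mod_cast h3

/-- Cramer's rule for linear forms -/
theorem cramer_id {n : ℕ} (M : Matrix (Fin n) (Fin n) ℤ) (f y : Fin n → ℤ) :
    M.det * ap f y = ∑ l, (M.updateRow l f).det * ap (M l) y := by
  have h := Matrix.mulVec_cramer M.transpose f
  rw [Matrix.det_transpose] at h
  unfold ap
  rw [Finset.mul_sum]
  simp only [Finset.mul_sum]
  rw [Finset.sum_comm]
  refine Finset.sum_congr rfl fun j _ => ?_
  have h1 := congrFun h j
  simp only [Matrix.mulVec, dotProduct, Matrix.transpose_apply, Pi.smul_apply, smul_eq_mul,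
    Matrix.cramer_transpose_apply] at h1
  rw [← mul_assoc, ← h1, Finset.sum_mul]
  exact Finset.sum_congr rfl fun l _ => by ring

/-- a spanning family of integral linear forms contains a basis -/
theorem exists_basis {n : ℕ} {ι : Type} (φ : ι → Fin n → ℤ)
    (hsp : ∀ y : Fin n → ℤ, (∀ i, ap (φ i) y = 0) → y = 0) :
    ∃ β : Fin n → ι, (Matrix.of fun l => φ (β l)).det ≠ 0 := by
  classical
  let ψ : ι → Fin n → ℚ := fun i j => (φ i j : ℚ)
  have htop : Submodule.span ℚ (Set.range ψ) = ⊤ := by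
    by_contra hne
    obtain ⟨f, hf0, hf⟩ := Submodule.exists_le_ker_of_lt_top _ (lt_top_iff_ne_top.2 hne)
    let g : Fin n → ℚ := fun j => f (Pi.single j 1)
    let d : ℕ := ∏ j, (g j).den
    have hd : d ≠ 0 := Finset.prod_ne_zero_iff.2 fun j _ => (g j).den_nz
    have hint : ∀ j, ∃ z : ℤ, (z : ℚ) = d * g j := by
      intro j
      have h1 : ((g j).den : ℕ) ∣ d := Finset.dvd_prod_of_mem _ (Finset.mem_univ j)
      obtain ⟨c, hc⟩ := h1
      refine ⟨c * (g j).num, ?_⟩
      rw [hc]
      push_cast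
      have h2 : ((g j).den : ℚ) * g j = (g j).num := by
        rw [mul_comm]; exact Rat.mul_den_eq_num (g j)
      linear_combination -(c : ℚ) * h2
    choose z hz using hint
    have hfg : ∀ x : Fin n → ℚ, f x = ∑ j, x j * g j := by
      intro x
      conv_lhs => rw [← Finset.univ_sum_single x]
      rw [map_sum]
      refine Finset.sum_congr rfl fun j _ => ?_
      have : Pi.single j (x j) = x j • (Pi.single j (1 : ℚ) : Fin n → ℚ) := by
        rw [← Pi.single_smul]; simp
      rw [this, map_smul, smul_eq_mul]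
    have hz0 : z = 0 := by
      apply hsp
      intro i
      have h1 : f (ψ i) = 0 := hf (Submodule.subset_span ⟨i, rfl⟩)
      rw [hfg] at h1
      have h2 : ((ap (φ i) z : ℤ) : ℚ) = d * ∑ j, ψ i j * g j := by
        unfold ap
        push_cast
        rw [Finset.mul_sum]
        refine Finset.sum_congr rfl fun j _ => ?_
        rw [hz j]
        simp only [ψ]
        ring
      rw [h1, mul_zero] at h2
      exact_mod_cast h2
    apply hf0
    ext j
    simp only [LinearMap.coe_comp, LinearMap.coe_single, Function.comp_apply, LinearMap.zero_apply]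
    have h1 := hz j
    rw [hz0] at h1
    simp only [Pi.zero_apply, Int.cast_zero] at h1
    have h2 : (d : ℚ) ≠ 0 := by exact_mod_cast hd
    have h3 : g j = 0 := by
      rcases mul_eq_zero.1 h1.symm with h | h
      · exact absurd h h2
      · exact h
    exact h3
  obtain ⟨b, hb1, hb2, hb3⟩ := exists_linearIndependent ℚ (Set.range ψ)
  rw [htop] at hb2
  let B : Module.Basis b ℚ (Fin n → ℚ) := Module.Basis.mk hb3 (by
    rw [Subtype.range_coe, hb2])
  have : Fintype b := FiniteDimensional.fintypeBasisIndex B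
  have hcard : Fintype.card b = n := by
    rw [← Module.finrank_eq_card_basis B, Module.finrank_fin_fun]
  let eq : Fin n ≃ b := (Fintype.equivFinOfCardEq hcard).symm
  have hch : ∀ l : Fin n, ∃ i : ι, ψ i = (eq l : Fin n → ℚ) := fun l => hb1 (eq l).2
  choose β hβ using hch
  refine ⟨β, ?_⟩
  have h1 : LinearIndependent ℚ (fun l => ψ (β l)) := by
    have : (fun l => ψ (β l)) = (Subtype.val : b → Fin n → ℚ) ∘ eq := by
      funext l
      exact hβ l
    rw [this]
    exact hb3.comp eq eq.injective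
  have h2 : ((Matrix.of fun l => φ (β l)).map (Int.cast : ℤ → ℚ)).det ≠ 0 := by
    have h3 : (Matrix.of fun l => φ (β l)).map (Int.cast : ℤ → ℚ) = Matrix.of fun l => ψ (β l) := by
      ext l j
      rfl
    rw [h3]
    have h4 := (Matrix.linearIndependent_rows_iff_isUnit (A := Matrix.of fun l => ψ (β l))).1 (by
      exact h1)
    exact ((Matrix.isUnit_iff_isUnit_det _).1 h4).ne_zero
  intro h
  apply h2
  have h5 := (RingHom.map_det (Int.castRingHom ℚ) (Matrix.of fun l => φ (β l))).symm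
  rw [h, map_zero] at h5
  exact h5

/-- a basis of minimal size -/
theorem greedy {n : ℕ} {ι : Type} [Fintype ι] (φ : ι → Fin n → ℤ)
    (hsp : ∀ y : Fin n → ℤ, (∀ i, ap (φ i) y = 0) → y = 0) (g : ι → ℝ) :
    ∃ β : Fin n → ι, (Matrix.of fun l => φ (β l)).det ≠ 0 ∧
      ∀ i l, ((Matrix.of fun l => φ (β l)).updateRow l (φ i)).det ≠ 0 → g (β l) ≤ g i := by
  classical
  obtain ⟨β0, hβ0⟩ := exists_basis φ hsp
  let T : Finset (Fin n → ι) := Finset.univ.filter fun β => (Matrix.of fun l => φ (β l)).det ≠ 0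
  obtain ⟨β, hβT, hmin⟩ := Finset.exists_min_image T (fun β => ∑ l, g (β l))
    ⟨β0, Finset.mem_filter.2 ⟨Finset.mem_univ _, hβ0⟩⟩
  refine ⟨β, (Finset.mem_filter.1 hβT).2, ?_⟩
  intro i l hdet
  have h1 : (Matrix.of fun l' => φ (Function.update β l i l')) =
      (Matrix.of fun l => φ (β l)).updateRow l (φ i) := by
    ext l' j
    by_cases h : l' = l
    · subst h; simp
    · simp [h]
  have h2 := hmin (Function.update β l i) (Finset.mem_filter.2 ⟨Finset.mem_univ _, by
    rw [h1]; exact hdet⟩)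
  have h3 : ∑ l', g (Function.update β l i l') = g i + ∑ l' ∈ Finset.univ.erase l, g (β l') := by
    rw [← Finset.add_sum_erase _ _ (Finset.mem_univ l)]
    congr 1
    · simp
    · refine Finset.sum_congr rfl fun l' hl' => ?_
      rw [Function.update_of_ne (Finset.ne_of_mem_erase hl')]
  have h4 : ∑ l', g (β l') = g (β l) + ∑ l' ∈ Finset.univ.erase l, g (β l') :=
    (Finset.add_sum_erase _ _ (Finset.mem_univ l)).symm
  beta_reduce at h2
  rw [h3, h4] at h2
  linarith

end Pool.Agent.Run7.h860.Ns
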