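import Pool.Agent.Run7.h860.Ns.Mh
import Pool.Agent.Run7.h860.Ns.Ph

/-!
The local estimate for the resultant of an irreducible polynomial and an integral polynomial; the
product formula; forms and vectors.
-/

set_option autoImplicit false

open Finset Polynomial

namespace Pool.Agent.Run7.h860.Ns

/-- `∑ min (λ_a(z), λ_a(w))` over the pairs `z, w` of roots of `f` in `K`, and `a ∈ D` -/
noncomputable def pairSum (K : Type) [NormedField K] (D : Finset (ℤ × ℤ)) (f : ℤ[X]) : ℝ :=
  ((f.map (Int.castRingHom K)).roots.map fun z =>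
    ((f.map (Int.castRingHom K)).roots.map fun w => ∑ a ∈ D, min (lam a z) (lam a w)).sum).sum

/-- `|lc(f)| ∏ max(1, |z|)` over the roots of `f` in `K` -/
noncomputable def mah (K : Type) [NormedField K] (f : ℤ[X]) : ℝ :=
  ‖(f.leadingCoeff : K)‖ * ((f.map (Int.castRingHom K)).roots.map fun z => max 1 ‖z‖).prod

theorem tr_map {K : Type} [Field K] (d : ℕ) (a : ℤ × ℤ) (G : ℤ[X]) :
    tr d a (G.map (Int.castRingHom K)) = (tr d a G).map (Int.castRingHom K) := by
  unfold tr
  rw [Polynomial.map_sum]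
  refine Finset.sum_congr rfl fun k _ => ?_
  simp only [Polynomial.map_mul, Polynomial.map_pow, Polynomial.map_add, map_X, coeff_map,
    eq_intCast, Int.cast_id]
  push_cast
  simp

theorem place_le (K : Type) [NormedField K] [CharZero K] [IsAlgClosed K] (d : ℕ)
    (D : Finset (ℤ × ℤ)) (hD0 : ∀ a ∈ D, a ≠ (0, 0))
    (hD : ∀ a ∈ D, ∀ b ∈ D, a ≠ b → a.1 * b.2 ≠ a.2 * b.1) (hne : D.Nonempty) :
    ∃ c : ℝ, ∀ (f G : ℤ[X]) (B f0 : ℝ), f.natDegree = d → f ≠ 0 → G.natDegree ≤ d → 0 < B →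
      0 ≤ f0 → IsCoprime (f.map (Int.castRingHom ℚ)) (G.map (Int.castRingHom ℚ)) →
      (∀ a ∈ D, ∀ z : K, (f.map (Int.castRingHom K)).IsRoot z → (a.1 : K) - a.2 * z ≠ 0) →
      (∀ a ∈ D, f0 ≤ ‖(((tr d a f).coeff 0 : ℤ) : K)‖) →
      (∀ a ∈ D, ∀ j ≤ d, ‖(((tr d a G).coeff j : ℤ) : K)‖ ≤
        B * max ‖(((tr d a f).coeff j : ℤ) : K)‖ f0) →
      resultant f G d d ≠ 0 ∧
      Real.log ‖((resultant f G d d : ℤ) : K)‖ ≤ c + d * Real.log B + 2 * d * Real.log (mah K f) -
        pairSum K D f := by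
  classical
  obtain ⟨c, hc⟩ := local_main (K := K) d D hD0 hD hne
  refine ⟨c, ?_⟩
  intro f G B f0 hfd hf0 hG hB hf00 hcop hz hfl hbd
  set F := f.map (Int.castRingHom K) with hF
  have hinj : Function.Injective (Int.castRingHom K) := Int.cast_injective
  have hFd : F.natDegree = d := by rw [hF, natDegree_map_eq_of_injective hinj, hfd]
  have hlc : F.leadingCoeff = (f.leadingCoeff : K) := by
    rw [hF, leadingCoeff_map_of_injective hinj]; rfl
  have hA0 : F.leadingCoeff ≠ 0 := by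
    rw [hlc, Int.cast_ne_zero]
    exact leadingCoeff_ne_zero.2 hf0
  have hFne : F ≠ 0 := leadingCoeff_ne_zero.1 hA0
  obtain ⟨z', hz1', hz2'⟩ := exists_roots F
  obtain ⟨z, hz1, hz2⟩ : ∃ z : Fin d → K, F = C F.leadingCoeff * ∏ i, (X - C (z i)) ∧
      F.roots = (Finset.univ : Finset (Fin d)).val.map z := by
    rw [← hFd]
    exact ⟨z', hz1', hz2'⟩
  have hroot : ∀ i, F.IsRoot (z i) := by
    intro i
    rw [← mem_roots hFne, hz2]
    exact Multiset.mem_map_of_mem _ (Finset.mem_univ_val i)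
  have hGz : ∀ i, (G.map (Int.castRingHom K)).eval (z i) ≠ 0 := by
    intro i h0
    obtain ⟨u, v, huv⟩ := hcop
    have h1 := congrArg (fun q : ℚ[X] => (q.map (algebraMap ℚ K)).eval (z i)) huv
    simp only [Polynomial.map_add, Polynomial.map_mul, Polynomial.map_map, eval_add, eval_mul,
      Polynomial.map_one, eval_one] at h1
    have e1 : (algebraMap ℚ K).comp (Int.castRingHom ℚ) = Int.castRingHom K := RingHom.ext_int _ _
    rw [e1] at h1
    have h2 : (f.map (Int.castRingHom K)).eval (z i) = 0 := hroot i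
    rw [h2, h0, mul_zero, mul_zero, add_zero] at h1
    exact zero_ne_one h1
  have htrF : ∀ a : ℤ × ℤ, tr d a (C F.leadingCoeff * ∏ i, (X - C (z i))) =
      (tr d a f).map (Int.castRingHom K) := by
    intro a
    rw [← hz1, hF, tr_map]
  have hcoef0 : ∀ a : ℤ × ℤ, (((tr d a f).coeff 0 : ℤ) : K) =
      F.leadingCoeff * ∏ i, ((a.1 : K) - a.2 * z i) := by
    intro a
    have h1 := congrArg (fun q : K[X] => q.coeff 0) (htrF a)
    simp only [coeff_map, eq_intCast] at h1
    rw [← h1, tr_prod, coeff_C_mul, ← Polynomial.constantCoeff_apply, map_prod]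
    congr 1
    refine Finset.prod_congr rfl fun i _ => ?_
    simp [Polynomial.constantCoeff_apply]
  have key := hc F.leadingCoeff z (G.map (Int.castRingHom K)) B f0 hA0
    (natDegree_map_le.trans hG) hB hf00 hGz (fun a ha i => hz a ha _ (hroot i)) (by
      intro a ha
      have := hfl a ha
      rw [hcoef0 a, norm_mul, norm_prod] at this
      exact this) (by
      intro a ha j hj
      have := hbd a ha j hj
      rw [tr_map, htrF, coeff_map, coeff_map]
      exact this)
  have hres : ((resultant f G d d : ℤ) : K) =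
      F.leadingCoeff ^ d * ∏ i, (G.map (Int.castRingHom K)).eval (z i) := by
    have h1 := resultant_eq_prod_eval F (G.map (Int.castRingHom K)) d
      (natDegree_map_le.trans hG) (IsAlgClosed.splits F)
    rw [hFd, hF, resultant_map_map] at h1
    rw [← hF, hz2, Multiset.map_map] at h1
    exact h1
  have hresne : ((resultant f G d d : ℤ) : K) ≠ 0 := by
    rw [hres]
    exact mul_ne_zero (pow_ne_zero _ hA0) (Finset.prod_ne_zero_iff.2 fun i _ => hGz i)
  refine ⟨fun h => hresne (by rw [h, Int.cast_zero]), ?_⟩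
  have hlog : Real.log ‖((resultant f G d d : ℤ) : K)‖ = d * Real.log ‖F.leadingCoeff‖ +
      ∑ i, Real.log ‖(G.map (Int.castRingHom K)).eval (z i)‖ := by
    rw [hres, norm_mul, norm_pow, norm_prod, Real.log_mul (pow_ne_zero _ (norm_ne_zero_iff.2 hA0))
      (Finset.prod_ne_zero_iff.2 fun i _ => norm_ne_zero_iff.2 (hGz i)), Real.log_pow,
      Real.log_prod (fun i _ => norm_ne_zero_iff.2 (hGz i))]
  have hmah : mah K f = ‖F.leadingCoeff‖ * ∏ k, max 1 ‖z k‖ := by
    unfold mah
    rw [← hF, hz2, Multiset.map_map, ← hlc]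
    rfl
  have hpair : pairSum K D f = ∑ i, ∑ k, ∑ a ∈ D, min (lam a (z i)) (lam a (z k)) := by
    unfold pairSum
    rw [← hF, hz2, Multiset.map_map]
    simp only [Multiset.map_map, Function.comp_def]
    rfl
  rw [hlog, hmah, hpair]
  exact key

/-- the absolute value of an integer in the algebraic closure of `ℚ_p` -/
theorem norm_int_cl (p : ℕ) [Fact p.Prime] (n : ℤ) : ‖(n : PadicAlgCl p)‖ = ‖(n : ℚ_[p])‖ := by
  rw [← PadicAlgCl.norm_extends, map_intCast]

theorem norm_int_val (p : ℕ) [Fact p.Prime] (n : ℤ) (hn : n ≠ 0) :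
    ‖(n : ℚ_[p])‖ = ((p : ℝ) ^ (padicValInt p n))⁻¹ := by
  have h1 : ((n : ℚ_[p])) = ((n : ℚ) : ℚ_[p]) := by push_cast; rfl
  rw [h1, Padic.eq_padicNorm, padicNorm.eq_zpow_of_nonzero (by exact_mod_cast hn),
    padicValRat.of_int]
  push_cast
  rw [zpow_neg, zpow_natCast]

theorem mah_padic_le (p : ℕ) [Fact p.Prime] (f : ℤ[X]) (hf : f ≠ 0) :
    Real.log (mah (PadicAlgCl p) f) ≤ f.natDegree * Real.log (f.natDegree + 1) := by
  classical
  set F := f.map (Int.castRingHom (PadicAlgCl p)) with hF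
  have hinj : Function.Injective (Int.castRingHom (PadicAlgCl p)) := Int.cast_injective
  have hFd : F.natDegree = f.natDegree := natDegree_map_eq_of_injective hinj f
  have hlc : F.leadingCoeff = (f.leadingCoeff : PadicAlgCl p) := by
    rw [hF, leadingCoeff_map_of_injective hinj]; rfl
  have hA0 : F.leadingCoeff ≠ 0 := by
    rw [hlc, Int.cast_ne_zero]
    exact leadingCoeff_ne_zero.2 hf
  obtain ⟨z, hz1, hz2⟩ := exists_roots F
  have h1 := mh_le (K := PadicAlgCl p) F.natDegree (Finset.univ : Finset (Fin F.natDegree))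
    (by simp) F.leadingCoeff z 1 (by
      intro j
      rw [← hz1, hF, coeff_map]
      show ‖((f.coeff j : ℤ) : PadicAlgCl p)‖ ≤ 1
      rw [norm_int_cl]
      exact Padic.norm_int_le_one _)
  have h2 : mah (PadicAlgCl p) f = ‖F.leadingCoeff‖ * ∏ k, max 1 ‖z k‖ := by
    unfold mah
    rw [← hF, hz2, Multiset.map_map, ← hlc]
    rfl
  rw [Finset.card_univ, Fintype.card_fin, mul_one, ← h2] at h1
  have h3 : 0 < mah (PadicAlgCl p) f := by
    rw [h2]
    exact mul_pos (norm_pos_iff.2 hA0) (Finset.prod_pos fun k _ => lt_max_of_lt_left one_pos)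
  have h4 := Real.log_le_log h3 h1
  rw [Real.log_pow, hFd] at h4
  exact h4

/-- the product formula -/
theorem prod_formula {s : ℕ} (b : Fin s → ℕ) (hb : ∀ v, (b v).Prime)
    (hcop : ∀ v v', v ≠ v' → Nat.Coprime (b v) (b v')) (n : ℤ) (hn : n ≠ 0) :
    ∑ v, (padicValInt (b v) n : ℝ) * Real.log (b v) ≤ Real.log |(n : ℝ)| := by
  classical
  have h1 : (∏ v : Fin s, ((b v : ℤ) ^ padicValInt (b v) n)) ∣ n := by
    refine Finset.prod_dvd_of_coprime (t := Finset.univ) ?_ ?_
    · intro v _ v' _ hvv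
      exact IsCoprime.pow (Nat.isCoprime_iff_coprime.2 (hcop v v' hvv))
    · intro v _
      exact padicValInt_dvd n
  have h2 : (∏ v : Fin s, ((b v : ℝ) ^ padicValInt (b v) n)) ≤ |(n : ℝ)| := by
    have h3 := Int.le_of_dvd (abs_pos.2 hn) ((dvd_abs _ _).2 h1)
    have h4 : ((∏ v : Fin s, ((b v : ℤ) ^ padicValInt (b v) n) : ℤ) : ℝ) ≤ ((|n| : ℤ) : ℝ) := by
      exact_mod_cast h3
    push_cast at h4
    exact h4
  have h5 : ∀ v, (0 : ℝ) < (b v : ℝ) ^ padicValInt (b v) n := fun v =>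
    pow_pos (by exact_mod_cast (hb v).pos) _
  have h6 := Real.log_le_log (Finset.prod_pos fun v _ => h5 v) h2
  rw [Real.log_prod (fun v _ => (h5 v).ne')] at h6
  simp only [Real.log_pow] at h6
  exact h6

/-! ### forms and vectors -/

/-- the coefficients of `f` up to the degree `d` -/
def vec (d : ℕ) (f : ℤ[X]) : Fin (d + 1) → ℤ := fun k => f.coeff k

/-- the polynomial with the coefficients `y` -/
noncomputable def pol {d : ℕ} (y : Fin (d + 1) → ℤ) : ℤ[X] := ∑ k, C (y k) * X ^ (k : ℕ)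

/-- the coefficient of `U ^ j` in the Taylor expansion at `a`, as a linear form -/
noncomputable def form (d : ℕ) (a : ℤ × ℤ) (j : ℕ) : Fin (d + 1) → ℤ := fun k =>
  (((C (a.1 : ℤ) + C (-(a.2 : ℤ)) * X) ^ (k : ℕ) * (C (a.2 : ℤ) + C (a.1 : ℤ) * X) ^ (d - k) :
    ℤ[X])).coeff j

theorem ap_form (d : ℕ) (a : ℤ × ℤ) (j : ℕ) (f : ℤ[X]) :
    ap (form d a j) (vec d f) = (tr d a f).coeff j := by
  unfold ap form vec tr
  simp only [Int.cast_id]
  rw [finsetSum_coeff, Finset.sum_range]
  refine Finset.sum_congr rfl fun k _ => ?_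
  rw [coeff_C_mul, mul_comm]

theorem coeff_pol {d : ℕ} (y : Fin (d + 1) → ℤ) (k : Fin (d + 1)) : (pol y).coeff k = y k := by
  unfold pol
  rw [finsetSum_coeff, Finset.sum_eq_single k]
  · simp
  · intro l _ hl
    rw [coeff_C_mul_X_pow, if_neg]
    intro h
    exact hl (Fin.ext h.symm)
  · simp

theorem vec_pol {d : ℕ} (y : Fin (d + 1) → ℤ) : vec d (pol y) = y := by
  funext k
  exact coeff_pol y k

theorem natDegree_pol_le {d : ℕ} (y : Fin (d + 1) → ℤ) : (pol y).natDegree ≤ d := by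
  unfold pol
  refine natDegree_sum_le_of_forall_le _ _ fun k _ => ?_
  refine (natDegree_C_mul_X_pow_le _ _).trans ?_
  omega

theorem pol_vec {d : ℕ} (f : ℤ[X]) (hf : f.natDegree ≤ d) : pol (vec d f) = f := by
  ext j
  by_cases hj : j < d + 1
  · have := coeff_pol (vec d f) ⟨j, hj⟩
    simpa [vec] using this
  · rw [coeff_eq_zero_of_natDegree_lt (by have := natDegree_pol_le (vec d f); omega),
      coeff_eq_zero_of_natDegree_lt (by omega)]

theorem span_form (d : ℕ) (a : ℤ × ℤ) (ha : a ≠ (0, 0)) (y : Fin (d + 1) → ℤ)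
    (h : ∀ j : Fin (d + 1), ap (form d a j) y = 0) : y = 0 := by
  have h1 : pol y = 0 := by
    apply Polynomial.funext
    intro z
    have h2 := tr_eval d a (pol y) (natDegree_pol_le y) z
    have h3 : hm d (tr d a (pol y)) ((a.1 : ℤ) * z + a.2) (a.1 - a.2 * z) = 0 := by
      unfold hm
      refine Finset.sum_eq_zero fun j hj => ?_
      have h4 := h ⟨j, Finset.mem_range.1 hj⟩
      rw [← vec_pol y, ap_form] at h4
      simp only at h4
      rw [h4]
      ring
    simp only [Int.cast_id] at h2 h3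
    rw [h3] at h2
    rw [eval_zero]
    rcases mul_eq_zero.1 h2.symm with h5 | h5
    · exfalso
      have h6 : a.1 ^ 2 + a.2 ^ 2 = 0 := eq_zero_of_pow_eq_zero h5
      apply ha
      have h7 : a.1 ^ 2 = 0 := by nlinarith [sq_nonneg a.1, sq_nonneg a.2]
      have h8 : a.2 ^ 2 = 0 := by nlinarith [sq_nonneg a.1, sq_nonneg a.2]
      exact Prod.ext (pow_eq_zero_iff (two_ne_zero) |>.1 h7) (pow_eq_zero_iff (two_ne_zero) |>.1 h8)
    · exact h5
  funext k
  rw [← coeff_pol y k, h1]
  simp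

end Pool.Agent.Run7.h860.Ns
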