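import Pool.Agent.Run7.h860.Ns.At
import Pool.Agent.Run7.h860.Ns.Pl
import Pool.Agent.TH551.SU.Sst

/-!
The theorem for polynomials of a given degree.
-/

set_option autoImplicit false

open Finset Polynomial Filter Topology

namespace Pool.Agent.Run7.h860.Ns

theorem mah_complex (f : ℤ[X]) : mah ℂ f = (f.map (Int.castRingHom ℂ)).mahlerMeasure := by
  rw [mahlerMeasure_eq_leadingCoeff_mul_prod_roots,
    leadingCoeff_map_of_injective (RingHom.injective_int (Int.castRingHom ℂ))]
  rfl

theorem root_ne {K : Type} [Field K] [CharZero K] (d : ℕ) (a : ℤ × ℤ) (ha : a ≠ (0, 0)) (f : ℤ[X])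
    (hf : f.natDegree ≤ d) (h0 : (tr d a f).coeff 0 ≠ 0) (z : K)
    (hz : (f.map (Int.castRingHom K)).IsRoot z) : (a.1 : K) - a.2 * z ≠ 0 := by
  intro h
  have h1 := tr_eval d a (f.map (Int.castRingHom K)) (natDegree_map_le.trans hf) z
  have h2 : (f.map (Int.castRingHom K)).eval z = 0 := hz
  rw [h2, mul_zero, h] at h1
  unfold hm at h1
  rw [Finset.sum_eq_single 0 (fun j _ hj => by rw [zero_pow hj, mul_zero]) (by simp)] at h1
  rw [tr_map, coeff_map, pow_zero, mul_one] at h1
  rcases mul_eq_zero.1 h1 with h3 | h3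
  · apply h0
    have : (((tr d a f).coeff 0 : ℤ) : K) = 0 := h3
    exact_mod_cast this
  · have h4 : (a.1 : K) * z + a.2 = 0 := eq_zero_of_pow_eq_zero h3
    have h5 : (((a.1 ^ 2 + a.2 ^ 2 : ℤ)) : K) = 0 := by
      push_cast
      linear_combination (a.1 : K) * h + (a.2 : K) * h4
    have h6 : a.1 ^ 2 + a.2 ^ 2 = 0 := by exact_mod_cast h5
    apply ha
    have h7 : a.1 ^ 2 = 0 := by nlinarith [sq_nonneg a.1, sq_nonneg a.2]
    have h8 : a.2 ^ 2 = 0 := by nlinarith [sq_nonneg a.1, sq_nonneg a.2]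
    exact Prod.ext (pow_eq_zero_iff (two_ne_zero) |>.1 h7) (pow_eq_zero_iff (two_ne_zero) |>.1 h8)

/-- a polynomial of degree at most `d` which is not proportional to the irreducible polynomial `f` of
degree `d` is coprime to it -/
theorem coprime_of {d : ℕ} (hd : 1 ≤ d) (f : ℤ[X]) (hf : Irreducible f) (hfd : f.natDegree = d)
    (y : Fin (d + 1) → ℤ) (hy : ¬ Par y (vec d f)) :
    IsCoprime (f.map (Int.castRingHom ℚ)) ((pol y).map (Int.castRingHom ℚ)) := by
  have hprim : f.IsPrimitive := hf.isPrimitive (by omega)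
  have hirr := (IsPrimitive.Int.irreducible_iff_irreducible_map_cast hprim).1 hf
  rcases hirr.isCoprime_or_dvd ((pol y).map (Int.castRingHom ℚ)) with h | h
  · exact h
  · exfalso
    obtain ⟨q, hq⟩ := h
    have hinj : Function.Injective (Int.castRingHom ℚ) := Int.cast_injective
    have hqc : ∃ c : ℚ, q = C c := by
      by_cases h0 : q = 0
      · exact ⟨0, by rw [h0, map_zero]⟩
      · have h1 := natDegree_mul hirr.ne_zero h0
        rw [← hq, natDegree_map_eq_of_injective hinj, natDegree_map_eq_of_injective hinj, hfd] at h1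
        have h2 := natDegree_pol_le y
        exact ⟨q.coeff 0, eq_C_of_natDegree_eq_zero (by omega)⟩
    obtain ⟨c, hc⟩ := hqc
    apply hy
    refine ⟨c.num, c.den, by exact_mod_cast c.den_nz, ?_⟩
    funext k
    have h1 := congrArg (fun r : ℚ[X] => r.coeff k) hq
    simp only [coeff_map, hc, mul_comm _ (C c), coeff_C_mul, eq_intCast] at h1
    rw [coeff_pol] at h1
    simp only [Pi.smul_apply, smul_eq_mul, vec]
    have h2 : ((c.den : ℤ) : ℚ) * (y k : ℚ) = ((c.num : ℤ) : ℚ) * (f.coeff k : ℚ) := by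
      rw [h1]
      have h3 : (c.den : ℚ) * c = c.num := by rw [mul_comm]; exact Rat.mul_den_eq_num c
      push_cast
      linear_combination (f.coeff k : ℚ) * h3
    exact_mod_cast h2

theorem prim_vec {d : ℕ} (hd : 1 ≤ d) (f : ℤ[X]) (hf : Irreducible f) (hfd : f.natDegree = d)
    (y : Fin (d + 1) → ℤ) (hy : Par y (vec d f)) : ∃ m : ℤ, y = m • vec d f := by
  obtain ⟨p, q, hq, h⟩ := hy
  have hprim : f.IsPrimitive := hf.isPrimitive (by omega)
  have h1 : C q * pol y = C p * f := by
    ext j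
    rw [coeff_C_mul, coeff_C_mul]
    by_cases hj : j < d + 1
    · have h2 := congrFun h ⟨j, hj⟩
      simp only [Pi.smul_apply, smul_eq_mul, vec] at h2
      have h3 := coeff_pol y ⟨j, hj⟩
      simp only at h3
      rw [h3]
      exact h2
    · rw [coeff_eq_zero_of_natDegree_lt (by have := natDegree_pol_le y; omega),
        coeff_eq_zero_of_natDegree_lt (by omega)]
      ring
  have h4 : q ∣ p := by
    have h5 : q ∣ (C p * f).content := dvd_content_iff_C_dvd.2 ⟨pol y, h1.symm⟩
    rw [content_C_mul, hprim.content_eq_one, mul_one] at h5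
    exact (dvd_normalize_iff).1 h5
  obtain ⟨m, rfl⟩ := h4
  refine ⟨m, ?_⟩
  have h6 : q • y = q • (m • vec d f) := by rw [h, mul_smul]
  exact smul_right_injective _ hq h6

theorem abs_eq_of_par {d : ℕ} (hd : 1 ≤ d) (f g : ℤ[X]) (hf : Irreducible f)
    (hfd : f.natDegree = d) (hg : Irreducible g) (hgd : g.natDegree = d)
    (h : Par (vec d f) (vec d g)) (ψ : Fin (d + 1) → ℤ) :
    (ap ψ (vec d f)).natAbs = (ap ψ (vec d g)).natAbs := by
  obtain ⟨m, hm⟩ := prim_vec hd g hg hgd _ h
  have h' : Par (vec d g) (vec d f) := by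
    obtain ⟨p, q, hq, h1⟩ := h
    refine ⟨q, p, ?_, h1.symm⟩
    rintro rfl
    rw [zero_smul] at h1
    have h2 : vec d f = 0 := by
      rcases smul_eq_zero.1 h1 with h3 | h3
      · exact absurd h3 hq
      · exact h3
    have h4 := pol_vec f hfd.le
    rw [h2] at h4
    apply hf.ne_zero
    rw [← h4]
    simp [pol]
  obtain ⟨n, hn⟩ := prim_vec hd f hf hfd _ h'
  have h5 : vec d f = (m * n) • vec d f := by
    conv_lhs => rw [hm, hn]
    rw [mul_smul]
  have hne : vec d f ≠ 0 := by
    intro h2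
    have h4 := pol_vec f hfd.le
    rw [h2] at h4
    apply hf.ne_zero
    rw [← h4]
    simp [pol]
  obtain ⟨j, hj⟩ := Function.ne_iff.1 hne
  have h6 := congrFun h5 j
  simp only [Pi.smul_apply, smul_eq_mul] at h6
  have h7 : m * n = 1 := by
    have : (m * n - 1) * vec d f j = 0 := by linear_combination -h6
    rcases mul_eq_zero.1 this with h8 | h8
    · omega
    · exact absurd h8 hj
  have h8 : m = 1 ∨ m = -1 := Int.isUnit_iff.1 (IsUnit.of_mul_eq_one n h7)
  rw [hm, ap_smul]
  rcases h8 with rfl | rfl <;> simp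

theorem core {s : ℕ} (b : Fin s → ℕ) [hb : ∀ v, Fact (b v).Prime] (hinj : Function.Injective b)
    (d : ℕ) (hd : 1 ≤ d) (D : Finset (ℤ × ℤ)) (hD0 : ∀ a ∈ D, a ≠ (0, 0))
    (hD : ∀ a ∈ D, ∀ b ∈ D, a ≠ b → a.1 * b.2 ≠ a.2 * b.1) (hne : D.Nonempty) (ε : ℝ)
    (hε : 0 < ε) :
    ∃ C : ℝ, ∀ f : ℤ[X], Irreducible f → f.natDegree = d → (∀ a ∈ D, (tr d a f).coeff 0 ≠ 0) →
      pairSum ℂ D f + ∑ v, pairSum (PadicAlgCl (b v)) D f ≤
        (2 + ε) * d * Real.log (mah ℂ f) + C := by
  classical
  by_contra hcon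
  push Not at hcon
  choose g hg1 hg2 hg3 hg4 using fun n : ℕ => hcon n
  have hb2 : ∀ v, 2 ≤ b v := fun v => (hb v).out.two_le
  have hcop : ∀ v v', v ≠ v' → Nat.Coprime (b v) (b v') := fun v v' h =>
    (Nat.coprime_primes (hb v).out (hb v').out).2 fun h' => h (hinj h')
  obtain ⟨a0, ha0⟩ := hne
  let ι := {a : ℤ × ℤ // a ∈ D} × Fin (d + 1)
  let φ : ι → Fin (d + 1) → ℤ := fun i => form d i.1.1 i.2
  have hspan : ∀ y : Fin (d + 1) → ℤ, (∀ i, ap (φ i) y = 0) → y = 0 := fun y hy =>
    span_form d a0 (hD0 a0 ha0) y fun j => hy (⟨a0, ha0⟩, j)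
  let L : ℤ[X] → ℕ := fun f => ∑ i, (ap (φ i) (vec d f)).natAbs
  let V : ℤ[X] → ℝ := fun f => pairSum ℂ D f + ∑ v, pairSum (PadicAlgCl (b v)) D f -
    (2 + ε) * d * Real.log (mah ℂ f)
  -- the sizes tend to infinity
  have hLt : Tendsto (fun n => L (g n)) atTop atTop := by
    rw [tendsto_atTop]
    intro B
    have hfin : {f : ℤ[X] | f.natDegree ≤ d ∧ L f ≤ B}.Finite := by
      refine Set.Finite.of_injOn (f := fun f : ℤ[X] => fun i : ι => ap (φ i) (vec d f))
        (t := Set.Icc (fun _ => -(B : ℤ)) (fun _ => (B : ℤ))) ?_ ?_ (Set.finite_Icc _ _)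
      · intro f hf
        have h1 : ∀ i, (ap (φ i) (vec d f)).natAbs ≤ B := fun i =>
          (Finset.single_le_sum (f := fun i => (ap (φ i) (vec d f)).natAbs)
            (fun _ _ => Nat.zero_le _) (Finset.mem_univ i)).trans hf.2
        constructor
        · intro i
          have := h1 i
          show -(B : ℤ) ≤ ap (φ i) (vec d f)
          omega
        · intro i
          have := h1 i
          show ap (φ i) (vec d f) ≤ (B : ℤ)
          omega
      · intro f hf f' hf' h
        have h1 : vec d f - vec d f' = 0 := hspan _ fun i => by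
          rw [ap_sub]
          have := congrFun h i
          simp only at this
          rw [this, sub_self]
        rw [← pol_vec f hf.1, ← pol_vec f' hf'.1, sub_eq_zero.1 h1]
    obtain ⟨M, hM⟩ := (hfin.image V).bddAbove
    obtain ⟨n0, hn0⟩ := exists_nat_gt M
    filter_upwards [eventually_ge_atTop n0] with n hn
    by_contra hlt
    push Not at hlt
    have h1 : V (g n) ≤ M := hM ⟨g n, ⟨(hg2 n).le, hlt.le⟩, rfl⟩
    have h2 := hg4 n
    have h3 : (n0 : ℝ) ≤ n := by exact_mod_cast hn
    simp only [V] at h1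
    linarith
  obtain ⟨θ, hθ, hθL⟩ := strictMono_subseq_of_tendsto_atTop hLt
  let h : ℕ → ℤ[X] := fun k => g (θ k)
  -- constants
  obtain ⟨ci, hci⟩ := place_le ℂ d D hD0 hD ⟨a0, ha0⟩
  have hcv' := fun v => place_le (PadicAlgCl (b v)) d D hD0 hD ⟨a0, ha0⟩
  choose cv hcv using hcv'
  set cb : ℝ := 1 + ∑ v, Real.log (b v) with hcb
  have hlogb : ∀ v, 0 ≤ Real.log (b v) := fun v => Real.log_nonneg (by
    have := hb2 v
    have : 1 ≤ b v := by omega
    exact_mod_cast this)
  have hcble : ∀ v, Real.log (b v) ≤ cb := by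
    intro v
    have := Finset.single_le_sum (f := fun v => Real.log (b v)) (fun v _ => hlogb v)
      (Finset.mem_univ v)
    linarith
  have hcb0 : 0 ≤ cb := by
    have : 0 ≤ ∑ v, Real.log (b v) := Finset.sum_nonneg fun v _ => hlogb v
    linarith
  set C3 : ℝ := ∑ i : ι, ∑ k, |(φ i k : ℝ)| * 2 ^ d with hC3
  set Ct : ℝ := ci + ∑ v, cv v + s * (2 * d * (d * Real.log (d + 1))) +
    d * ε * (Real.log C3 + cb) with hCt
  -- facts on one polynomial
  have hLmah : ∀ f : ℤ[X], f.natDegree = d → (L f : ℝ) ≤ C3 * mah ℂ f := by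
    intro f hf
    have h1 : ∀ k : Fin (d + 1), |((vec d f k : ℤ) : ℝ)| ≤ 2 ^ d * mah ℂ f := by
      intro k
      have h2 := norm_coeff_le_choose_mul_mahlerMeasure k (f.map (Int.castRingHom ℂ))
      rw [← mah_complex, coeff_map] at h2
      have h3 : ‖(Int.castRingHom ℂ) (f.coeff k)‖ = |((vec d f k : ℤ) : ℝ)| := by
        simp only [vec, eq_intCast]
        rw [Complex.norm_intCast]
      rw [h3] at h2
      refine h2.trans ?_
      have h4 : 0 ≤ mah ℂ f := by
        rw [mah_complex]
        exact mahlerMeasure_nonneg _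
      refine mul_le_mul_of_nonneg_right ?_ h4
      have h5 : (f.map (Int.castRingHom ℂ)).natDegree ≤ d := natDegree_map_le.trans hf.le
      calc (((f.map (Int.castRingHom ℂ)).natDegree.choose k : ℕ) : ℝ) ≤
            ((2 ^ (f.map (Int.castRingHom ℂ)).natDegree : ℕ) : ℝ) := by
              exact_mod_cast Nat.choose_le_two_pow _ _
        _ ≤ 2 ^ d := by
              push_cast
              exact pow_le_pow_right₀ (by norm_num) h5
    simp only [L]
    push_cast
    rw [hC3, Finset.sum_mul]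
    refine Finset.sum_le_sum fun i _ => ?_
    rw [Nat.cast_natAbs, Int.cast_abs]
    unfold ap
    push_cast
    refine (Finset.abs_sum_le_sum_abs _ _).trans ?_
    rw [Finset.sum_mul]
    refine Finset.sum_le_sum fun k _ => ?_
    rw [abs_mul, mul_assoc]
    exact mul_le_mul_of_nonneg_left (h1 k) (abs_nonneg _)
  have hLpos : ∀ f : ℤ[X], Irreducible f → f.natDegree = d →
      ∃ i, ap (φ i) (vec d f) ≠ 0 := by
    intro f hf hfd
    by_contra hall
    push Not at hall
    have h1 := hspan _ hall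
    have h2 := pol_vec f hfd.le
    rw [h1] at h2
    apply hf.ne_zero
    rw [← h2]
    simp [pol]
  have hLle : ∀ (f : ℤ[X]) (i : ι), |((ap (φ i) (vec d f) : ℤ) : ℝ)| ≤ L f := by
    intro f i
    have h1 := Finset.single_le_sum (f := fun i => (ap (φ i) (vec d f)).natAbs)
      (fun _ _ => Nat.zero_le _) (Finset.mem_univ i)
    have h2 : (((ap (φ i) (vec d f)).natAbs : ℕ) : ℝ) ≤ (L f : ℕ) := by exact_mod_cast h1
    rwa [Nat.cast_natAbs, Int.cast_abs] at h2
  have hL1 : ∀ f : ℤ[X], Irreducible f → f.natDegree = d → 1 ≤ L f := by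
    intro f hf hfd
    obtain ⟨i, hi⟩ := hLpos f hf hfd
    have h1 := Finset.single_le_sum (f := fun i => (ap (φ i) (vec d f)).natAbs)
      (fun _ _ => Nat.zero_le _) (Finset.mem_univ i)
    have h2 := Int.natAbs_pos.2 hi
    exact le_trans h2 h1
  -- the tail of the sequence
  obtain ⟨T0, hT0⟩ := exists_nat_gt Ct
  let F : ℕ → ℤ[X] := fun k => h (k + T0)
  have hF1 : ∀ k, Irreducible (F k) := fun k => hg1 _
  have hF2 : ∀ k, (F k).natDegree = d := fun k => hg2 _
  have hF3 : ∀ k, ∀ a ∈ D, (tr d a (F k)).coeff 0 ≠ 0 := fun k => hg3 _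
  have hF4 : ∀ k, (2 + ε) * d * Real.log (mah ℂ (F k)) + Ct <
      pairSum ℂ D (F k) + ∑ v, pairSum (PadicAlgCl (b v)) D (F k) := by
    intro k
    have h1 := hg4 (θ (k + T0))
    have h2 : k + T0 ≤ θ (k + T0) := hθ.id_le _
    have h3 : (T0 : ℝ) ≤ θ (k + T0) := by exact_mod_cast (le_trans (Nat.le_add_left _ _) h2)
    simp only [F, h]
    linarith
  have hFL : StrictMono fun k => L (F k) := fun k k' hkk => hθL (by omega)
  let N : ℕ → ℝ := fun k => Real.log (L (F k)) + cb
  have hNt : Tendsto N atTop atTop := by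
    refine tendsto_atTop_add_const_right _ _ ?_
    refine Real.tendsto_log_atTop.comp ?_
    exact tendsto_natCast_atTop_atTop.comp hFL.tendsto_atTop
  let A : ℕ → ι → ℝ := fun k i => max 1 |((ap (φ i) (vec d (F k)) : ℤ) : ℝ)|
  let e : ℕ → Fin s → ι → ℕ := fun k v i =>
    if ap (φ i) (vec d (F k)) = 0 then Nat.clog (b v) (L (F k))
    else padicValInt (b v) (ap (φ i) (vec d (F k)))
  have hL1F : ∀ k, 1 ≤ L (F k) := fun k => hL1 _ (hF1 k) (hF2 k)
  have hL1R : ∀ k, (1 : ℝ) ≤ L (F k) := fun k => by exact_mod_cast hL1F k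
  have hAle : ∀ k i, A k i ≤ L (F k) := fun k i => max_le (hL1R k) (hLle _ i)
  have hele : ∀ k v i, (b v : ℝ) ^ (e k v i) ≤ b v * L (F k) := by
    intro k v i
    have hb1 : (1 : ℝ) ≤ b v := by
      have := hb2 v
      have : 1 ≤ b v := by omega
      exact_mod_cast this
    simp only [e]
    split_ifs with h0
    · rcases Nat.lt_or_ge 1 (L (F k)) with h1 | h1
      · have h2 := Nat.pow_pred_clog_lt_self (by have := hb2 v; omega : 1 < b v) h1
        have h3 : 0 < Nat.clog (b v) (L (F k)) := Nat.clog_pos (by have := hb2 v; omega) h1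
        have h4 : b v ^ Nat.clog (b v) (L (F k)) = b v * b v ^ (Nat.clog (b v) (L (F k))).pred := by
          rw [← pow_succ']
          congr 1
          rw [Nat.pred_eq_sub_one]
          omega
        have h5 : b v ^ Nat.clog (b v) (L (F k)) ≤ b v * L (F k) := by
          rw [h4]
          exact Nat.mul_le_mul_left _ h2.le
        exact_mod_cast h5
      · rw [Nat.clog_of_right_le_one h1, pow_zero]
        nlinarith [hL1R k]
    · have h1 : ((b v : ℤ) ^ padicValInt (b v) (ap (φ i) (vec d (F k)))) ∣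
          ap (φ i) (vec d (F k)) := padicValInt_dvd _
      have h2 := Int.le_of_dvd (abs_pos.2 h0) ((dvd_abs _ _).2 h1)
      have h3 : (b v : ℝ) ^ padicValInt (b v) (ap (φ i) (vec d (F k))) ≤
          |((ap (φ i) (vec d (F k)) : ℤ) : ℝ)| := by exact_mod_cast h2
      have h4 := hLle (F k) i
      nlinarith [hL1R k]
  obtain ⟨k, y, hy1, hy2, hy3⟩ := at_main Pool.Agent.TH551.SU.sst (d + 1) ι φ hspan s b hb2 hcop
    1 ε 1 le_rfl hε one_pos N hNt A e (fun k => vec d (F k)) (fun k i => le_max_left _ _) (by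
      intro k i
      have h1 : 0 < A k i := lt_of_lt_of_le one_pos (le_max_left _ _)
      have h2 := Real.log_le_log h1 (hAle k i)
      simp only [N]
      linarith) (by
      intro k v i
      have hbp : (0 : ℝ) < b v := by exact_mod_cast (hb v).out.pos
      have h1 := Real.log_le_log (pow_pos hbp _) (hele k v i)
      rw [Real.log_pow, Real.log_mul hbp.ne' (by have := hL1R k; positivity)] at h1
      simp only [N]
      linarith [hcble v]) (fun k i => le_max_right _ _) (by
      intro k v i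
      simp only [e]
      split_ifs with h0
      · rw [h0]
        exact dvd_zero _
      · exact padicValInt_dvd _) (by
      intro k
      obtain ⟨i, hi⟩ := hLpos _ (hF1 k) (hF2 k)
      refine ⟨i, ?_⟩
      have h1 : (1 : ℝ) ≤ |((ap (φ i) (vec d (F k)) : ℤ) : ℝ)| := by
        have : (1 : ℤ) ≤ |ap (φ i) (vec d (F k))| := Int.one_le_abs hi
        exact_mod_cast this
      simp only [A]
      rw [max_eq_right h1, one_mul]) (fun k y hy => prim_vec hd _ (hF1 k) (hF2 k) y hy) (by
      intro k h0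
      obtain ⟨i, hi⟩ := hLpos _ (hF1 k) (hF2 k)
      exact hi (by rw [h0, ap_zero])) (by
      intro k k' hkk hpar
      apply hkk
      apply hFL.injective
      show ∑ i, (ap (φ i) (vec d (F k))).natAbs = ∑ i, (ap (φ i) (vec d (F k'))).natAbs
      exact Finset.sum_congr rfl fun i _ =>
        abs_eq_of_par hd _ _ (hF1 k) (hF2 k) (hF1 k') (hF2 k') hpar _)
  -- the contradiction
  set f := F k with hf
  have hfd := hF2 k
  have hfirr := hF1 k
  rw [← hf] at hfd hfirr
  have hcopr := coprime_of hd f hfirr hfd y hy1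
  have hcoefG : ∀ (a : ℤ × ℤ) (j : ℕ), (tr d a (pol y)).coeff j = ap (form d a j) y := by
    intro a j
    rw [← ap_form, vec_pol]
  have hcoefF : ∀ (a : ℤ × ℤ) (j : ℕ), (tr d a f).coeff j = ap (form d a j) (vec d f) := by
    intro a j
    rw [ap_form]
  have hLf : (1 : ℝ) ≤ L f := hL1R k
  have hinf := hci f (pol y) (Real.exp (ε * N k)) 1 hfd hfirr.ne_zero (natDegree_pol_le y)
    (Real.exp_pos _) zero_le_one hcopr
    (fun a ha z hz => root_ne d a (hD0 a ha) f hfd.le (hF3 k a ha) z hz) (by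
      intro a ha
      rw [Complex.norm_intCast]
      have : (1 : ℤ) ≤ |(tr d a f).coeff 0| := Int.one_le_abs (hF3 k a ha)
      exact_mod_cast this) (by
      intro a ha j hj
      rw [Complex.norm_intCast, Complex.norm_intCast, hcoefG, hcoefF, max_comm]
      exact hy2 (⟨a, ha⟩, ⟨j, by omega⟩))
  obtain ⟨hR0, hinf⟩ := hinf
  set R := resultant f (pol y) d d with hR
  have hpl : ∀ v, Real.log ‖((R : ℤ) : PadicAlgCl (b v))‖ ≤ cv v +
      2 * d * (d * Real.log (d + 1)) - pairSum (PadicAlgCl (b v)) D f := by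
    intro v
    have h1 := (hcv v f (pol y) 1 (1 / L f) hfd hfirr.ne_zero (natDegree_pol_le y) one_pos
      (by positivity) hcopr
      (fun a ha z hz => root_ne d a (hD0 a ha) f hfd.le (hF3 k a ha) z hz) (by
        intro a ha
        rw [norm_int_cl, norm_int_val _ _ (hF3 k a ha), one_div]
        have hbp : (0 : ℝ) < b v := by exact_mod_cast (hb v).out.pos
        refine inv_anti₀ (pow_pos hbp _) ?_
        have h1 : ((b v : ℤ) ^ padicValInt (b v) ((tr d a f).coeff 0)) ∣ (tr d a f).coeff 0 :=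
          padicValInt_dvd _
        have h2 := Int.le_of_dvd (abs_pos.2 (hF3 k a ha)) ((dvd_abs _ _).2 h1)
        have h3 : (b v : ℝ) ^ padicValInt (b v) ((tr d a f).coeff 0) ≤
            |(((tr d a f).coeff 0 : ℤ) : ℝ)| := by exact_mod_cast h2
        refine h3.trans ?_
        rw [hcoefF]
        exact hLle f (⟨a, ha⟩, ⟨0, by omega⟩)) (by
        intro a ha j hj
        rw [one_mul, norm_int_cl, norm_int_cl, hcoefG, hcoefF]
        have h2 := hy3 v (⟨a, ha⟩, ⟨j, by omega⟩)
        have h3 : (b v : ℤ) ^ (e k v (⟨a, ha⟩, ⟨j, by omega⟩)) ∣ ap (form d a j) y := h2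
        have h4 := (Padic.norm_int_le_pow_iff_dvd (p := b v) (ap (form d a j) y)
          (e k v (⟨a, ha⟩, ⟨j, by omega⟩))).2 h3
        refine h4.trans ?_
        have hbp : (0 : ℝ) < b v := by exact_mod_cast (hb v).out.pos
        rw [zpow_neg, zpow_natCast]
        simp only [e]
        split_ifs with h0
        · refine le_max_of_le_right ?_
          rw [one_div]
          refine inv_anti₀ (by linarith) ?_
          have := Nat.le_pow_clog (by have := hb2 v; omega : 1 < b v) (L f)
          exact_mod_cast this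
        · refine le_max_of_le_left ?_
          rw [norm_int_val _ _ h0])).2
    rw [Real.log_one, mul_zero, add_zero] at h1
    have h2 := mah_padic_le (b v) f hfirr.ne_zero
    rw [hfd] at h2
    have hdR : (0 : ℝ) ≤ 2 * d := by positivity
    have h3 := mul_le_mul_of_nonneg_left h2 hdR
    linarith
  have hval : ∀ v, Real.log ‖((R : ℤ) : PadicAlgCl (b v))‖ =
      -((padicValInt (b v) R : ℝ) * Real.log (b v)) := by
    intro v
    rw [norm_int_cl, norm_int_val _ _ hR0, Real.log_inv, Real.log_pow]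
  have hpf := prod_formula b (fun v => (hb v).out) hcop R hR0
  have hsum := Finset.sum_le_sum fun v (_ : v ∈ (Finset.univ : Finset (Fin s))) => hpl v
  simp only [hval, Finset.sum_neg_distrib, Finset.sum_sub_distrib, Finset.sum_add_distrib,
    Finset.sum_const, Finset.card_univ, Fintype.card_fin, nsmul_eq_mul] at hsum
  rw [Complex.norm_intCast, Real.log_exp] at hinf
  have hmah0 : 0 < mah ℂ f := by
    rw [mah_complex]
    apply mahlerMeasure_pos_of_ne_zero
    rw [Ne, Polynomial.map_eq_zero_iff (RingHom.injective_int (Int.castRingHom ℂ))]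
    exact hfirr.ne_zero
  have hC30 : 0 < C3 := by
    have h1 := hLmah f hfd
    by_contra hle
    push Not at hle
    nlinarith
  have hNle : N k ≤ Real.log C3 + Real.log (mah ℂ f) + cb := by
    have h1 := Real.log_le_log (by linarith : (0 : ℝ) < L f) (hLmah f hfd)
    rw [Real.log_mul hC30.ne' hmah0.ne'] at h1
    show Real.log (L f) + cb ≤ _
    linarith
  have h4 := hF4 k
  rw [← hf] at h4
  have hdε : (0 : ℝ) ≤ d * ε := by positivity
  have h5 := mul_le_mul_of_nonneg_left hNle hdε
  have h6 : (d : ℝ) * (ε * N k) = d * ε * N k := by ring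
  rw [h6] at hinf
  rw [hCt] at h4
  nlinarith

end Pool.Agent.Run7.h860.Ns
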