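import Pool.Agent.Run7.h860.Ns.Core

/-!
From the pair sums to the sums weighted with the local degrees.
-/

set_option autoImplicit false

open Finset Polynomial

namespace Pool.Agent.Run7.h860.Ns

/-- the constant of the lower bound of the local heights -/
noncomputable def low (D : Finset (ℤ × ℤ)) : ℝ := ∑ a ∈ D, Real.log (|(a.1 : ℝ)| + |(a.2 : ℝ)|)

theorem one_le_abs_add (a : ℤ × ℤ) (ha : a ≠ (0, 0)) : (1 : ℝ) ≤ |(a.1 : ℝ)| + |(a.2 : ℝ)| := by
  have h : (1 : ℤ) ≤ |a.1| + |a.2| := by
    by_contra h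
    have h1 := abs_nonneg a.1
    have h2 := abs_nonneg a.2
    apply ha
    have h3 : |a.1| = 0 := by omega
    have h4 : |a.2| = 0 := by omega
    exact Prod.ext (abs_eq_zero.1 h3) (abs_eq_zero.1 h4)
  exact_mod_cast h

theorem lam_ge {K : Type} [NormedField K] (a : ℤ × ℤ) (ha : a ≠ (0, 0)) (z : K) :
    -Real.log (|(a.1 : ℝ)| + |(a.2 : ℝ)|) ≤ lam a z := by
  have h0 := one_le_abs_add a ha
  unfold lam
  by_cases hz : ‖(a.1 : K) - a.2 * z‖ = 0
  · rw [hz, div_zero, Real.log_zero]
    have := Real.log_nonneg h0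
    linarith
  · have h1 : 0 < ‖(a.1 : K) - a.2 * z‖ := lt_of_le_of_ne (norm_nonneg _) (Ne.symm hz)
    have h2 : (1 : ℝ) ≤ max 1 ‖z‖ := le_max_left _ _
    rw [← Real.log_inv]
    apply Real.log_le_log (by positivity)
    rw [le_div_iff₀ h1, inv_mul_le_iff₀ (by linarith)]
    exact (ab_le a z).1

theorem low_nonneg (D : Finset (ℤ × ℤ)) (hD0 : ∀ a ∈ D, a ≠ (0, 0)) : 0 ≤ low D :=
  Finset.sum_nonneg fun a ha => Real.log_nonneg (one_le_abs_add a (hD0 a ha))

/-- the sum of the local heights -/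
noncomputable def lamD {K : Type} [NormedField K] (D : Finset (ℤ × ℤ)) (z : K) : ℝ :=
  ∑ a ∈ D, lam a z

theorem lamD_ge {K : Type} [NormedField K] (D : Finset (ℤ × ℤ)) (hD0 : ∀ a ∈ D, a ≠ (0, 0))
    (z : K) : -low D ≤ lamD D z := by
  unfold low lamD
  rw [← Finset.sum_neg_distrib]
  exact Finset.sum_le_sum fun a ha => lam_ge a (hD0 a ha) z

theorem min_ge {K : Type} [NormedField K] (D : Finset (ℤ × ℤ)) (hD0 : ∀ a ∈ D, a ≠ (0, 0))
    (z w : K) : -low D ≤ ∑ a ∈ D, min (lam a z) (lam a w) := by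
  unfold low
  rw [← Finset.sum_neg_distrib]
  exact Finset.sum_le_sum fun a ha => le_min (lam_ge a (hD0 a ha) z) (lam_ge a (hD0 a ha) w)

/-- sums over multisets -/
theorem multi_sum_ge {K : Type} (s t : Multiset K) (hst : s ≤ t) (g : K → ℝ) (c x : ℝ)
    (hc : 0 ≤ c) (hg : ∀ w, -c ≤ g w) (hs : ∀ w ∈ s, g w = x) :
    s.card * x - t.card * c ≤ (t.map g).sum := by
  obtain ⟨u, rfl⟩ := Multiset.le_iff_exists_add.1 hst
  rw [Multiset.map_add, Multiset.sum_add, Multiset.map_congr rfl hs, Multiset.map_const',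
    Multiset.sum_replicate, nsmul_eq_mul]
  have h1 : (u.card : ℝ) * (-c) ≤ (u.map g).sum := by
    have h2 := Multiset.sum_map_le_sum_map (s := u) (f := fun _ => -c) (g := g)
      (fun w _ => hg w)
    rwa [Multiset.map_const', Multiset.sum_replicate, nsmul_eq_mul] at h2
  rw [Multiset.card_add]
  push_cast
  have h3 : 0 ≤ (s.card : ℝ) * c := by positivity
  linarith

theorem card_roots_eq {K : Type} [Field K] [IsAlgClosed K] (f : K[X]) :
    f.roots.card = f.natDegree :=
  (splits_iff_card_roots.1 (IsAlgClosed.splits f))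

/-- the weighted sum is at most the pair sum -/
theorem deg_le (k K : Type) [Field k] [NormedField K] [Algebra k K] [IsAlgClosed K]
    [Normal k K] (hσ : ∀ (σ : K ≃ₐ[k] K) (x : K), ‖σ x‖ = ‖x‖)
    (D : Finset (ℤ × ℤ)) (hD0 : ∀ a ∈ D, a ≠ (0, 0)) (f : ℤ[X])
    (hf : f.map (Int.castRingHom K) ≠ 0) :
    ((f.map (Int.castRingHom K)).roots.map fun z =>
      ((minpoly k z).natDegree : ℝ) * lamD D z).sum - (f.natDegree : ℝ) ^ 2 * low D ≤
      pairSum K D f := by
  have hmap : (f.map (Int.castRingHom k)).map (algebraMap k K) = f.map (Int.castRingHom K) := by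
    rw [Polynomial.map_map]
    congr 1
    exact RingHom.ext_int _ _
  have hlow := low_nonneg D hD0
  have hcard : ((f.map (Int.castRingHom K)).roots.card : ℝ) ≤ f.natDegree := by
    rw [card_roots_eq]
    exact_mod_cast natDegree_map_le
  have key : ∀ z ∈ (f.map (Int.castRingHom K)).roots,
      ((minpoly k z).natDegree : ℝ) * lamD D z - (f.natDegree : ℝ) * low D ≤
      ((f.map (Int.castRingHom K)).roots.map fun w =>
        ∑ a ∈ D, min (lam a z) (lam a w)).sum := by
    intro z hz
    have hroot : (f.map (Int.castRingHom K)).IsRoot z := (mem_roots hf).1 hz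
    have hdvd : minpoly k z ∣ f.map (Int.castRingHom k) := by
      apply minpoly.dvd
      rw [aeval_def, ← eval_map, hmap]
      exact hroot
    have hle : ((minpoly k z).map (algebraMap k K)).roots ≤ (f.map (Int.castRingHom K)).roots := by
      apply roots.le_of_dvd hf
      rw [← hmap]
      exact Polynomial.map_dvd _ hdvd
    have h1 := multi_sum_ge _ _ hle (fun w => ∑ a ∈ D, min (lam a z) (lam a w)) (low D) (lamD D z)
      hlow (fun w => min_ge D hD0 z w) (by
        intro w hw
        have h2 : aeval w (minpoly k z) = 0 := by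
          rw [aeval_def, ← eval_map]
          exact isRoot_of_mem_roots hw
        have h3 : minpoly k w = minpoly k z := by
          have hirr := minpoly.irreducible (Algebra.IsIntegral.isIntegral (R := k) z)
          exact (minpoly.eq_of_irreducible_of_monic hirr h2
            (minpoly.monic (Algebra.IsIntegral.isIntegral (R := k) z))).symm
        obtain ⟨σ, hσ2⟩ := (Normal.minpoly_eq_iff_mem_orbit (F := k) (E := K)).1 h3
        have h4 : σ z = w := hσ2
        unfold lamD
        refine Finset.sum_congr rfl fun a _ => ?_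
        have h5 : lam a w = lam a z := by
          unfold lam
          have h6 : (a.1 : K) - a.2 * w = σ ((a.1 : K) - a.2 * z) := by
            rw [map_sub, map_mul, map_intCast, map_intCast, h4]
          rw [h6, hσ, ← h4, hσ]
        rw [h5, min_self])
    rw [card_roots_eq, natDegree_map] at h1
    have h2 := mul_le_mul_of_nonneg_right hcard hlow
    linarith
  have h3 := Multiset.sum_map_le_sum_map (s := (f.map (Int.castRingHom K)).roots) _ _ key
  unfold pairSum
  refine le_trans ?_ h3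
  rw [Multiset.sum_map_sub, Multiset.map_const', Multiset.sum_replicate, nsmul_eq_mul]
  have h4 := mul_le_mul_of_nonneg_right hcard (by positivity : 0 ≤ (f.natDegree : ℝ) * low D)
  nlinarith

theorem deg_le_padic (p : ℕ) [Fact p.Prime] (D : Finset (ℤ × ℤ)) (hD0 : ∀ a ∈ D, a ≠ (0, 0))
    (f : ℤ[X]) (hf : f.map (Int.castRingHom (PadicAlgCl p)) ≠ 0) :
    ((f.map (Int.castRingHom (PadicAlgCl p))).roots.map fun z =>
      ((minpoly ℚ_[p] z).natDegree : ℝ) * lamD D z).sum - (f.natDegree : ℝ) ^ 2 * low D ≤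
      pairSum (PadicAlgCl p) D f := by
  have : Normal ℚ_[p] (PadicAlgCl p) := inferInstance
  refine deg_le ℚ_[p] (PadicAlgCl p) ?_ D hD0 f hf
  intro σ x
  exact (spectralNorm_eq_of_equiv σ x).symm

theorem deg_le_complex (D : Finset (ℤ × ℤ)) (hD0 : ∀ a ∈ D, a ≠ (0, 0))
    (f : ℤ[X]) (hf : f.map (Int.castRingHom ℂ) ≠ 0) :
    ((f.map (Int.castRingHom ℂ)).roots.map fun z =>
      ((minpoly ℝ z).natDegree : ℝ) * lamD D z).sum - (f.natDegree : ℝ) ^ 2 * low D ≤
      pairSum ℂ D f := by
  have : Algebra.IsAlgebraic ℝ ℂ := Algebra.IsAlgebraic.of_finite ℝ ℂ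
  have : Normal ℝ ℂ := ⟨fun x => IsAlgClosed.splits _⟩
  refine deg_le ℝ ℂ ?_ D hD0 f hf
  intro σ x
  rcases Complex.real_algHom_eq_id_or_conj σ.toAlgHom with h | h
  · have h1 := DFunLike.congr_fun h x
    simp at h1
    rw [h1]
  · have h1 := DFunLike.congr_fun h x
    simp at h1
    rw [h1]
    simp

end Pool.Agent.Run7.h860.Ns
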