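import Pool.Agent.Run7.h860.Ns.Dg

/-!
The theorem for all polynomials of bounded degree.
-/

set_option autoImplicit false

open Finset Polynomial

namespace Pool.Agent.Run7.h860.Ns

local instance primesFact (p : Nat.Primes) : Fact (p : ℕ).Prime := ⟨p.2⟩

theorem log_mah_nonneg (f : ℤ[X]) (hf : f ≠ 0) : 0 ≤ Real.log (mah ℂ f) := by
  rw [mah_complex]
  exact Real.log_nonneg (one_le_mahlerMeasure_of_ne_zero hf)

theorem map_ne_zero' {K : Type} [Field K] [CharZero K] (f : ℤ[X]) (hf : f ≠ 0) :
    f.map (Int.castRingHom K) ≠ 0 := by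
  rw [Ne, Polynomial.map_eq_zero_iff (RingHom.injective_int (Int.castRingHom K))]
  exact hf

theorem tr_coeff_zero (d : ℕ) (a : ℤ × ℤ) (f : ℤ[X]) :
    (tr d a f).coeff 0 = ∑ k ∈ Finset.range (d + 1), f.coeff k * a.1 ^ k * a.2 ^ (d - k) := by
  rw [coeff_zero_eq_eval_zero]
  unfold tr
  rw [eval_finsetSum]
  refine Finset.sum_congr rfl fun k _ => ?_
  simp [mul_assoc]

/-- a point outside `D` -/
theorem off_coeff (d : ℕ) (f : ℤ[X]) (hf : f ≠ 0) (hfd : f.natDegree = d) (a : ℤ × ℤ)
    (ha : a ≠ (0, 0))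
    (h : ∀ z ∈ (f.map (Int.castRingHom ℂ)).roots, (a.1 : ℂ) ≠ a.2 * z) :
    (tr d a f).coeff 0 ≠ 0 := by
  rw [tr_coeff_zero]
  intro h0
  by_cases h2 : a.2 = 0
  · have h1 : a.1 ≠ 0 := fun h1 => ha (Prod.ext h1 h2)
    rw [Finset.sum_eq_single d] at h0
    · rcases mul_eq_zero.1 h0 with h3 | h3
      · rcases mul_eq_zero.1 h3 with h4 | h4
        · apply hf
          rw [← leadingCoeff_eq_zero, leadingCoeff, hfd]
          exact h4
        · exact h1 (eq_zero_of_pow_eq_zero h4)
      · rw [Nat.sub_self, pow_zero] at h3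
        exact one_ne_zero h3
    · intro k hk hkd
      have : d - k ≠ 0 := by
        have := Finset.mem_range.1 hk
        omega
      rw [h2, zero_pow this, mul_zero]
    · intro hd
      exact absurd (Finset.mem_range.2 (Nat.lt_succ_self d)) hd
  · have h2' : (a.2 : ℂ) ≠ 0 := by exact_mod_cast h2
    have hroot : (f.map (Int.castRingHom ℂ)).IsRoot ((a.1 : ℂ) / a.2) := by
      have h3 : (f.map (Int.castRingHom ℂ)).eval ((a.1 : ℂ) / a.2) * (a.2 : ℂ) ^ d = 0 := by
        rw [eval_eq_sum_range' (n := d + 1) (by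
          have := natDegree_map_le (f := Int.castRingHom ℂ) (p := f)
          omega), Finset.sum_mul]
        have h4 : ∀ k ∈ Finset.range (d + 1), (f.map (Int.castRingHom ℂ)).coeff k *
            ((a.1 : ℂ) / a.2) ^ k * (a.2 : ℂ) ^ d =
            (((f.coeff k * a.1 ^ k * a.2 ^ (d - k) : ℤ)) : ℂ) := by
          intro k hk
          have hk' : k ≤ d := by
            have := Finset.mem_range.1 hk
            omega
          rw [coeff_map]
          push_cast
          have h5 : (a.2 : ℂ) ^ d = (a.2 : ℂ) ^ k * (a.2 : ℂ) ^ (d - k) := by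
            rw [← pow_add]
            congr 1
            omega
          rw [h5, div_pow]
          field_simp
          simp
          ring
        rw [Finset.sum_congr rfl h4]
        exact_mod_cast h0
      rcases mul_eq_zero.1 h3 with h4 | h4
      · exact h4
      · exact absurd (eq_zero_of_pow_eq_zero h4) h2'
    have := h _ ((mem_roots (map_ne_zero' f hf)).2 hroot)
    apply this
    field_simp

/-- the constant for one degree -/
theorem coreS (S : Finset Nat.Primes) (d : ℕ) (hd : 1 ≤ d) (D : Finset (ℤ × ℤ))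
    (hD0 : ∀ a ∈ D, a ≠ (0, 0)) (hD : ∀ a ∈ D, ∀ b ∈ D, a ≠ b → a.1 * b.2 ≠ a.2 * b.1) (ε : ℝ)
    (hε : 0 < ε) :
    ∃ C : ℝ, 0 ≤ C ∧ ∀ f : ℤ[X], Irreducible f → f.natDegree = d →
      (∀ a ∈ D, ∀ z ∈ (f.map (Int.castRingHom ℂ)).roots, (a.1 : ℂ) ≠ a.2 * z) →
      pairSum ℂ D f + ∑ p ∈ S, pairSum (PadicAlgCl p) D f ≤
        (2 + ε) * d * Real.log (mah ℂ f) + C := by
  classical
  rcases D.eq_empty_or_nonempty with rfl | hne
  · refine ⟨0, le_rfl, fun f hf hfd _ => ?_⟩
    have h0 : ∀ (K : Type) [NormedField K], pairSum K (∅ : Finset (ℤ × ℤ)) f = 0 := by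
      intro K _
      unfold pairSum
      simp
    simp only [h0]
    have h1 := log_mah_nonneg f hf.ne_zero
    simp only [Finset.sum_const_zero]
    have h2 : 0 ≤ (2 + ε) * d * Real.log (mah ℂ f) := by positivity
    linarith
  · let e := S.equivFin
    let b : Fin S.card → ℕ := fun i => ((e.symm i : {x // x ∈ S}) : Nat.Primes)
    have hb : ∀ v, Fact (b v).Prime := fun v => ⟨((e.symm v : {x // x ∈ S}) : Nat.Primes).2⟩
    have hinj : Function.Injective b := by
      intro i j hij
      have h1 : ((e.symm i : {x // x ∈ S}) : Nat.Primes) = ((e.symm j : {x // x ∈ S}) : Nat.Primes) :=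
        Nat.Primes.coe_nat_injective hij
      exact e.symm.injective (Subtype.ext h1)
    obtain ⟨C, hC⟩ := core b hinj d hd D hD0 hD hne ε hε
    refine ⟨|C|, abs_nonneg _, fun f hf hfd hoff => ?_⟩
    have h1 := hC f hf hfd fun a ha => off_coeff d f hf.ne_zero hfd a (hD0 a ha) (hoff a ha)
    have h2 : ∑ p ∈ S, pairSum (PadicAlgCl p) D f = ∑ v, pairSum (PadicAlgCl (b v)) D f := by
      rw [← Finset.sum_coe_sort S fun p : Nat.Primes => pairSum (PadicAlgCl p) D f]
      exact (Equiv.sum_comp e.symm fun p : {x // x ∈ S} =>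
        pairSum (PadicAlgCl (p : Nat.Primes)) D f).symm
    rw [h2]
    exact h1.trans (by linarith [le_abs_self C])

/-- the weighted sum -/
noncomputable def degSum (k K : Type) [Field k] [NormedField K] [Algebra k K]
    (D : Finset (ℤ × ℤ)) (f : ℤ[X]) : ℝ :=
  ((f.map (Int.castRingHom K)).roots.map fun z => ((minpoly k z).natDegree : ℝ) * lamD D z).sum

/-- the sum -/
noncomputable def sngSum (K : Type) [NormedField K] (D : Finset (ℤ × ℤ)) (f : ℤ[X]) : ℝ :=
  ((f.map (Int.castRingHom K)).roots.map fun z => lamD D z).sum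

theorem natDegree_minpoly_le (k K : Type) [Field k] [CharZero k] [Field K] [Algebra k K]
    [CharZero K] (f : ℤ[X]) (hf : f ≠ 0) (z : K) (hz : z ∈ (f.map (Int.castRingHom K)).roots) :
    minpoly k z ∣ f.map (Int.castRingHom k) ∧ (minpoly k z).natDegree ≤ f.natDegree ∧
      IsIntegral k z := by
  have hmap : (f.map (Int.castRingHom k)).map (algebraMap k K) = f.map (Int.castRingHom K) := by
    rw [Polynomial.map_map]
    congr 1
    exact RingHom.ext_int _ _
  have hroot : (f.map (Int.castRingHom K)).IsRoot z := (mem_roots (map_ne_zero' f hf)).1 hz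
  have h0 : aeval z (f.map (Int.castRingHom k)) = 0 := by
    rw [aeval_def, ← eval_map, hmap]
    exact hroot
  have hdvd : minpoly k z ∣ f.map (Int.castRingHom k) := minpoly.dvd _ _ h0
  refine ⟨hdvd, (natDegree_le_of_dvd hdvd (map_ne_zero' f hf)).trans natDegree_map_le, ?_⟩
  exact (isAlgebraic_iff_isIntegral).1 ⟨_, map_ne_zero' f hf, h0⟩

theorem degSum_ge (k K : Type) [Field k] [CharZero k] [NormedField K] [Algebra k K] [CharZero K]
    [IsAlgClosed K] (D : Finset (ℤ × ℤ)) (hD0 : ∀ a ∈ D, a ≠ (0, 0)) (f : ℤ[X]) (hf : f ≠ 0) :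
    -((f.natDegree : ℝ) ^ 2 * low D) ≤ degSum k K D f := by
  have hlow := low_nonneg D hD0
  have key : ∀ z ∈ (f.map (Int.castRingHom K)).roots,
      -((f.natDegree : ℝ) * low D) ≤ ((minpoly k z).natDegree : ℝ) * lamD D z := by
    intro z hz
    have h1 : ((minpoly k z).natDegree : ℝ) ≤ f.natDegree := by
      exact_mod_cast (natDegree_minpoly_le k K f hf z hz).2.1
    have h2 := lamD_ge D hD0 z
    have h3 : (0 : ℝ) ≤ (minpoly k z).natDegree := Nat.cast_nonneg _
    nlinarith
  have h3 := Multiset.sum_map_le_sum_map (s := (f.map (Int.castRingHom K)).roots) _ _ key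
  rw [Multiset.map_const', Multiset.sum_replicate, nsmul_eq_mul] at h3
  have hcard : ((f.map (Int.castRingHom K)).roots.card : ℝ) ≤ f.natDegree := by
    rw [card_roots_eq]
    exact_mod_cast natDegree_map_le
  unfold degSum
  refine le_trans ?_ h3
  have h4 := mul_le_mul_of_nonneg_right hcard (by positivity : 0 ≤ (f.natDegree : ℝ) * low D)
  nlinarith

theorem degSum_eq (k K : Type) [Field k] [CharZero k] [NormedField K] [Algebra k K] [CharZero K]
    (D : Finset (ℤ × ℤ)) (f : ℤ[X]) (hf : f ≠ 0) (hirr : Irreducible (f.map (Int.castRingHom k))) :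
    degSum k K D f = f.natDegree * sngSum K D f := by
  unfold degSum sngSum
  rw [← Multiset.sum_map_mul_left]
  congr 1
  refine Multiset.map_congr rfl fun z hz => ?_
  obtain ⟨h1, h2, h3⟩ := natDegree_minpoly_le k K f hf z hz
  have h4 : Associated (minpoly k z) (f.map (Int.castRingHom k)) :=
    (minpoly.irreducible h3).associated_of_dvd hirr h1
  have h5 := natDegree_eq_of_degree_eq (degree_eq_degree_of_associated h4)
  rw [h5, natDegree_map_eq_of_injective (RingHom.injective_int (Int.castRingHom k))]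

end Pool.Agent.Run7.h860.Ns
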