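import Mathlib

/-!
Local estimates: the values of a polynomial at the roots of another one, if its Taylor coefficients
at the points of `D` are not larger.
-/

set_option autoImplicit false

open Finset Polynomial

namespace Pool.Agent.Run7.h860.Ns

section Alg

variable {R : Type} [CommRing R]

/-- homogenisation -/
def hm (n : ℕ) (p : R[X]) (s u : R) : R := ∑ j ∈ Finset.range (n + 1), p.coeff j * s ^ (n - j) * u ^ j

theorem hm_lin (n : ℕ) (a b : R) (p : R[X]) (hp : p.natDegree ≤ n) (s u : R) :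
    hm (n + 1) ((C a + C b * X) * p) s u = (a * s + b * u) * hm n p s u := by
  have hc : ∀ j, ((C a + C b * X) * p).coeff (j + 1) = a * p.coeff (j + 1) + b * p.coeff j := by
    intro j
    rw [add_mul, coeff_add, coeff_C_mul, mul_assoc, coeff_C_mul, coeff_X_mul]
  have hc0 : ((C a + C b * X) * p).coeff 0 = a * p.coeff 0 := by
    rw [add_mul, coeff_add, coeff_C_mul, mul_assoc, coeff_C_mul, coeff_X_mul_zero]
    ring
  unfold hm
  rw [Finset.sum_range_succ' _ (n + 1), hc0]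
  simp only [hc]
  have h1 : ∑ j ∈ Finset.range (n + 1), (a * p.coeff (j + 1) + b * p.coeff j) *
      s ^ (n + 1 - (j + 1)) * u ^ (j + 1) =
      (∑ j ∈ Finset.range (n + 1), a * p.coeff (j + 1) * s ^ (n - j) * u ^ (j + 1)) +
        b * u * ∑ j ∈ Finset.range (n + 1), p.coeff j * s ^ (n - j) * u ^ j := by
    rw [Finset.mul_sum, ← Finset.sum_add_distrib]
    refine Finset.sum_congr rfl fun j _ => ?_
    have : n + 1 - (j + 1) = n - j := by omega
    rw [this]
    ring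
  rw [h1]
  have h2 : (∑ j ∈ Finset.range (n + 1), a * p.coeff (j + 1) * s ^ (n - j) * u ^ (j + 1)) +
      a * p.coeff 0 * s ^ (n + 1 - 0) * u ^ 0 =
      a * s * ∑ j ∈ Finset.range (n + 1), p.coeff j * s ^ (n - j) * u ^ j := by
    rw [Finset.sum_range_succ _ n, Finset.mul_sum, Finset.sum_range_succ' _ n]
    have h3 : p.coeff (n + 1) = 0 := coeff_eq_zero_of_natDegree_lt (by omega)
    rw [h3]
    have h4 : ∑ j ∈ Finset.range n, a * p.coeff (j + 1) * s ^ (n - j) * u ^ (j + 1) =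
        ∑ j ∈ Finset.range n, a * s * (p.coeff (j + 1) * s ^ (n - (j + 1)) * u ^ (j + 1)) := by
      refine Finset.sum_congr rfl fun j hj => ?_
      have h5 : n - j = (n - (j + 1)) + 1 := by
        have := Finset.mem_range.1 hj
        omega
      rw [h5, pow_succ]
      ring
    rw [h4]
    simp only [Nat.sub_zero, pow_zero, mul_one, mul_zero, zero_mul, add_zero]
    rw [pow_succ]
    ring
  linear_combination h2

theorem hm_C (a s u : R) : hm 0 (C a) s u = a := by simp [hm]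

theorem hm_smul (n : ℕ) (a : R) (p : R[X]) (s u : R) : hm n (C a * p) s u = a * hm n p s u := by
  unfold hm
  rw [Finset.mul_sum]
  refine Finset.sum_congr rfl fun j _ => ?_
  rw [coeff_C_mul]
  ring

theorem natDegree_lin_le (a b : R) : (C a + C b * X).natDegree ≤ 1 := by
  rw [add_comm]
  exact natDegree_linear_le

theorem natDegree_prod_lin_le {ι : Type} (T : Finset ι) (x y : ι → R) :
    (∏ i ∈ T, (C (x i) + C (y i) * X)).natDegree ≤ T.card := by
  refine (natDegree_prod_le _ _).trans ?_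
  refine (Finset.sum_le_sum fun i _ => natDegree_lin_le (x i) (y i)).trans ?_
  simp

theorem hm_prod {ι : Type} (T : Finset ι) (x y : ι → R) (s u : R) :
    hm T.card (∏ i ∈ T, (C (x i) + C (y i) * X)) s u = ∏ i ∈ T, (x i * s + y i * u) := by
  classical
  induction T using Finset.induction_on with
  | empty => simp [hm]
  | insert a T ha ih =>
    rw [Finset.prod_insert ha, Finset.card_insert_of_notMem ha,
      hm_lin _ _ _ _ (natDegree_prod_lin_le T x y), ih, Finset.prod_insert ha]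

/-- homogenisation of a product of powers of two linear polynomials -/
theorem hm_pow (a b c d s u : R) (k l : ℕ) :
    hm (k + l) ((C a + C b * X) ^ k * (C c + C d * X) ^ l) s u =
      (a * s + b * u) ^ k * (c * s + d * u) ^ l := by
  induction k with
  | zero =>
    rw [pow_zero, one_mul, pow_zero, one_mul, Nat.zero_add]
    induction l with
    | zero => simp [hm]
    | succ l ih =>
      rw [pow_succ', hm_lin _ _ _ _ _, ih, pow_succ']
      exact (natDegree_pow_le).trans (by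
        have := natDegree_lin_le c d
        nlinarith)
  | succ k ih =>
    have h1 : k + 1 + l = (k + l) + 1 := by ring
    rw [h1, pow_succ', mul_assoc, hm_lin _ _ _ _ _, ih, pow_succ']
    · ring
    · refine natDegree_mul_le.trans ?_
      have h2 := (natDegree_pow_le (p := (C a + C b * X)) (n := k))
      have h3 := (natDegree_pow_le (p := (C c + C d * X)) (n := l))
      have h4 := natDegree_lin_le a b
      have h5 := natDegree_lin_le c d
      nlinarith

/-- the Taylor expansion of `G` (of formal degree `d`) at the point `a` of the line, with respect to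
the coordinate `U`, `(x : y) = (a₁ - a₂ U : a₂ + a₁ U)` -/
noncomputable def tr (d : ℕ) (a : ℤ × ℤ) (G : R[X]) : R[X] :=
  ∑ k ∈ Finset.range (d + 1), C (G.coeff k) *
    ((C (a.1 : R) + C (-(a.2 : R)) * X) ^ k * (C (a.2 : R) + C (a.1 : R) * X) ^ (d - k))

theorem tr_eval (d : ℕ) (a : ℤ × ℤ) (G : R[X]) (hG : G.natDegree ≤ d) (z : R) :
    hm d (tr d a G) (a.1 * z + a.2) (a.1 - a.2 * z) =
      ((a.1 : R) ^ 2 + (a.2 : R) ^ 2) ^ d * G.eval z := by
  have h1 : ∀ s u : R, hm d (tr d a G) s u = ∑ k ∈ Finset.range (d + 1), G.coeff k *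
      ((a.1 * s + -a.2 * u) ^ k * (a.2 * s + a.1 * u) ^ (d - k)) := by
    intro s u
    have h2 : hm d (tr d a G) s u = ∑ k ∈ Finset.range (d + 1), hm d (C (G.coeff k) *
        ((C (a.1 : R) + C (-(a.2 : R)) * X) ^ k * (C (a.2 : R) + C (a.1 : R) * X) ^ (d - k))) s u := by
      unfold hm tr
      simp only [finsetSum_coeff, Finset.sum_mul]
      rw [Finset.sum_comm]
    rw [h2]
    refine Finset.sum_congr rfl fun k hk => ?_
    have h3 : k + (d - k) = d := by
      have := Finset.mem_range.1 hk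
      omega
    rw [hm_smul]
    have h4 := hm_pow (a.1 : R) (-(a.2 : R)) (a.2 : R) (a.1 : R) s u k (d - k)
    rw [h3] at h4
    rw [h4]
  rw [h1, eval_eq_sum_range' (Nat.lt_succ_of_le hG), Finset.mul_sum]
  refine Finset.sum_congr rfl fun k hk => ?_
  have h3 : d = k + (d - k) := by
    have := Finset.mem_range.1 hk
    omega
  have e1 : (a.1 : R) * (a.1 * z + a.2) + -a.2 * (a.1 - a.2 * z) =
      ((a.1 : R) ^ 2 + (a.2 : R) ^ 2) * z := by ring
  have e2 : (a.2 : R) * (a.1 * z + a.2) + a.1 * (a.1 - a.2 * z) =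
      (a.1 : R) ^ 2 + (a.2 : R) ^ 2 := by ring
  rw [e1, e2, mul_pow]
  have e3 : ((a.1 : R) ^ 2 + (a.2 : R) ^ 2) ^ d =
      ((a.1 : R) ^ 2 + (a.2 : R) ^ 2) ^ k * ((a.1 : R) ^ 2 + (a.2 : R) ^ 2) ^ (d - k) := by
    rw [← pow_add, ← h3]
  rw [e3]
  ring

theorem tr_prod {d : ℕ} (a : ℤ × ℤ) (A : R) (z : Fin d → R) :
    tr d a (C A * ∏ i, (X - C (z i))) =
      C A * ∏ i, (C ((a.1 : R) - a.2 * z i) + C (-((a.1 : R) * z i + a.2)) * X) := by
  have h0 : C A * ∏ i, (X - C (z i)) = C A * ∏ i : Fin d, (C (-z i) + C 1 * X) := by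
    congr 1
    refine Finset.prod_congr rfl fun i _ => ?_
    rw [map_neg, map_one, one_mul]
    ring
  have h1 := hm_prod (R := R[X]) (Finset.univ : Finset (Fin d)) (fun i => C (-z i)) (fun _ => C 1)
    (C (a.2 : R) + C (a.1 : R) * X) (C (a.1 : R) + C (-(a.2 : R)) * X)
  rw [Finset.card_univ, Fintype.card_fin] at h1
  have h2 : tr d a (C A * ∏ i, (X - C (z i))) =
      C A * hm d (∏ i : Fin d, (C (C (-z i)) + C (C 1) * X))
        (C (a.2 : R) + C (a.1 : R) * X) (C (a.1 : R) + C (-(a.2 : R)) * X) := by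
    rw [h0]
    unfold tr hm
    rw [Finset.mul_sum]
    refine Finset.sum_congr rfl fun k _ => ?_
    have h3 : (∏ i : Fin d, (C (C (-z i)) + C (C 1) * X) : R[X][X]) =
        (∏ i : Fin d, (C (-z i) + C 1 * X) : R[X]).map C := by
      rw [Polynomial.map_prod]
      refine Finset.prod_congr rfl fun i _ => ?_
      simp
    rw [h3, coeff_map, coeff_C_mul, map_mul]
    ring
  rw [h2, h1]
  congr 1
  refine Finset.prod_congr rfl fun i _ => ?_
  simp only [map_neg, map_sub, map_add, map_mul, map_one]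
  ring

end Alg

section Norm

variable {K : Type} [NormedField K]

theorem coeff_prod_le {ι : Type} (T : Finset ι) (x y : ι → K) (j : ℕ) :
    ‖(∏ i ∈ T, (C (x i) + C (y i) * X)).coeff j‖ ≤
      (∏ i ∈ T, (C ‖x i‖ + C ‖y i‖ * X) : ℝ[X]).coeff j := by
  classical
  induction T using Finset.induction_on generalizing j with
  | empty =>
    simp only [Finset.prod_empty, coeff_one]
    split_ifs <;> simp
  | insert a T ha ih =>
    rw [Finset.prod_insert ha, Finset.prod_insert ha, add_mul, add_mul, coeff_add, coeff_add,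
      coeff_C_mul, coeff_C_mul, mul_assoc, mul_assoc, coeff_C_mul, coeff_C_mul]
    cases j with
    | zero =>
      rw [coeff_X_mul_zero, coeff_X_mul_zero, mul_zero, mul_zero, add_zero, add_zero, norm_mul]
      exact mul_le_mul_of_nonneg_left (ih 0) (norm_nonneg _)
    | succ j =>
      rw [coeff_X_mul, coeff_X_mul]
      refine (norm_add_le _ _).trans ?_
      rw [norm_mul, norm_mul]
      exact add_le_add (mul_le_mul_of_nonneg_left (ih _) (norm_nonneg _))
        (mul_le_mul_of_nonneg_left (ih _) (norm_nonneg _))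

/-- the local Weil function of the point `a` at `z` -/
noncomputable def lam (a : ℤ × ℤ) (z : K) : ℝ :=
  Real.log (max 1 ‖z‖ / ‖(a.1 : K) - a.2 * z‖)

theorem norm_intCast_le' (n : ℤ) : ‖(n : K)‖ ≤ |(n : ℝ)| := by
  have h1 : ∀ m : ℕ, ‖(m : K)‖ ≤ m := by
    intro m
    induction m with
    | zero => simp
    | succ m ih =>
      push_cast
      exact (norm_add_le _ _).trans (add_le_add ih (by rw [norm_one]))
  obtain ⟨m, rfl | rfl⟩ := n.eq_nat_or_neg
  · simpa using h1 m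
  · simpa using h1 m

theorem ab_le (a : ℤ × ℤ) (z : K) :
    ‖(a.1 : K) - a.2 * z‖ ≤ (|(a.1 : ℝ)| + |(a.2 : ℝ)|) * max 1 ‖z‖ ∧
      ‖(a.1 : K) * z + a.2‖ ≤ (|(a.1 : ℝ)| + |(a.2 : ℝ)|) * max 1 ‖z‖ := by
  have h1 := norm_intCast_le' (K := K) a.1
  have h2 := norm_intCast_le' (K := K) a.2
  have h3 : (1 : ℝ) ≤ max 1 ‖z‖ := le_max_left _ _
  have h4 : ‖z‖ ≤ max 1 ‖z‖ := le_max_right _ _
  have h5 := norm_nonneg (a.1 : K)
  have h6 := norm_nonneg (a.2 : K)
  constructor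
  · refine (norm_sub_le _ _).trans ?_
    rw [norm_mul, add_mul]
    refine add_le_add ?_ ?_
    · nlinarith
    · exact mul_le_mul h2 h4 (norm_nonneg _) (abs_nonneg _)
  · refine (norm_add_le _ _).trans ?_
    rw [norm_mul, add_mul]
    refine add_le_add ?_ ?_
    · exact mul_le_mul h1 h4 (norm_nonneg _) (abs_nonneg _)
    · nlinarith

/-- the value at a root, for one point `a` -/
theorem value_le {d : ℕ} (a : ℤ × ℤ) (ha : a ≠ (0, 0)) (A : K) (z : Fin d → K)
    (hz : ∀ i, (a.1 : K) - a.2 * z i ≠ 0) (G : K[X]) (hG : G.natDegree ≤ d) (B f0 : ℝ) (hB : 0 ≤ B)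
    (hf0 : 0 ≤ f0) (hf : f0 ≤ ‖A‖ * ∏ i, ‖(a.1 : K) - a.2 * z i‖)
    (hc : ∀ j ≤ d, ‖(tr d a G).coeff j‖ ≤ B * max ‖(tr d a (C A * ∏ i, (X - C (z i)))).coeff j‖ f0)
    (i : Fin d) :
    ‖(a.1 : K) ^ 2 + (a.2 : K) ^ 2‖ ^ d * ‖G.eval (z i)‖ ≤
      B * ((d + 2) * (2 * (|(a.1 : ℝ)| + |(a.2 : ℝ)|)) ^ d) * (‖A‖ * ∏ k, max 1 ‖z k‖) *
        (max 1 ‖z i‖) ^ d * ∏ k, Real.exp (-min (lam a (z i)) (lam a (z k))) := by
  set Q : ℝ := |(a.1 : ℝ)| + |(a.2 : ℝ)| with hQ
  have hQ1 : 1 ≤ Q := by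
    have : a.1 ≠ 0 ∨ a.2 ≠ 0 := by
      by_contra h
      push Not at h
      exact ha (Prod.ext h.1 h.2)
    rcases this with h | h
    · have h1 : (1 : ℝ) ≤ |(a.1 : ℝ)| := by
        have : (1 : ℤ) ≤ |a.1| := Int.one_le_abs h
        exact_mod_cast this
      have := abs_nonneg (a.2 : ℝ)
      linarith
    · have h1 : (1 : ℝ) ≤ |(a.2 : ℝ)| := by
        have : (1 : ℤ) ≤ |a.2| := Int.one_le_abs h
        exact_mod_cast this
      have := abs_nonneg (a.1 : ℝ)
      linarith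
  set mz : Fin d → ℝ := fun k => max 1 ‖z k‖ with hmz
  have hmz1 : ∀ k, 1 ≤ mz k := fun k => le_max_left _ _
  set al : Fin d → K := fun k => (a.1 : K) - a.2 * z k with hal
  set be : Fin d → K := fun k => (a.1 : K) * z k + a.2 with hbe
  have hal0 : ∀ k, 0 < ‖al k‖ := fun k => norm_pos_iff.2 (hz k)
  have hexp : ∀ k, Real.exp (-lam a (z k)) = ‖al k‖ / mz k := by
    intro k
    unfold lam
    rw [← Real.log_inv, Real.exp_log (inv_pos.2 (div_pos (by have := hmz1 k; linarith) (hal0 k))),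
      inv_div]
  have hmax : ∀ k, Real.exp (-min (lam a (z i)) (lam a (z k))) =
      max (‖al i‖ / mz i) (‖al k‖ / mz k) := by
    intro k
    rw [← hexp, ← hexp, ← max_neg_neg]
    exact (Real.exp_strictMono.monotone.map_max)
  have hale : ∀ k, ‖al k‖ ≤ Q * mz k := fun k => (ab_le a (z k)).1
  have hble : ∀ k, ‖be k‖ ≤ Q * mz k := fun k => (ab_le a (z k)).2
  -- the expansion
  have h1 := tr_eval d a G hG (z i)
  have h2 : ‖(a.1 : K) ^ 2 + (a.2 : K) ^ 2‖ ^ d * ‖G.eval (z i)‖ ≤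
      ∑ j ∈ Finset.range (d + 1), ‖(tr d a G).coeff j‖ * ‖be i‖ ^ (d - j) * ‖al i‖ ^ j := by
    rw [← norm_pow, ← norm_mul, ← h1]
    unfold hm
    refine (norm_sum_le _ _).trans (le_of_eq ?_)
    refine Finset.sum_congr rfl fun j _ => ?_
    rw [norm_mul, norm_mul, norm_pow, norm_pow]
  set E : ℝ := ∏ k, Real.exp (-min (lam a (z i)) (lam a (z k))) with hE
  have hE0 : 0 < E := Finset.prod_pos fun k _ => Real.exp_pos _
  set Mh : ℝ := ‖A‖ * ∏ k, mz k with hMh
  have hMh0 : 0 ≤ Mh := mul_nonneg (norm_nonneg _) (Finset.prod_nonneg fun k _ => by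
    have := hmz1 k; linarith)
  -- the sum over the coefficients of `F`
  have h3 : ∑ j ∈ Finset.range (d + 1),
      ‖(tr d a (C A * ∏ i, (X - C (z i)))).coeff j‖ * ‖be i‖ ^ (d - j) * ‖al i‖ ^ j ≤
      (2 * Q) ^ d * Mh * mz i ^ d * E := by
    have h4 : ∑ j ∈ Finset.range (d + 1),
        ‖(tr d a (C A * ∏ i, (X - C (z i)))).coeff j‖ * ‖be i‖ ^ (d - j) * ‖al i‖ ^ j ≤
        ‖A‖ * hm d (∏ k : Fin d, (C ‖al k‖ + C ‖-be k‖ * X) : ℝ[X]) ‖be i‖ ‖al i‖ := by
      unfold hm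
      rw [Finset.mul_sum]
      refine Finset.sum_le_sum fun j _ => ?_
      rw [tr_prod, coeff_C_mul, norm_mul]
      have := coeff_prod_le (Finset.univ : Finset (Fin d)) al (fun k => -be k) j
      calc ‖A‖ * ‖(∏ k, (C (al k) + C (-be k) * X)).coeff j‖ * ‖be i‖ ^ (d - j) * ‖al i‖ ^ j
          ≤ ‖A‖ * (∏ k : Fin d, (C ‖al k‖ + C ‖-be k‖ * X) : ℝ[X]).coeff j * ‖be i‖ ^ (d - j) *
              ‖al i‖ ^ j := by gcongr
        _ = _ := by ring
    refine h4.trans ?_
    have h5 := hm_prod (Finset.univ : Finset (Fin d)) (fun k => ‖al k‖) (fun k => ‖-be k‖)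
      ‖be i‖ ‖al i‖
    rw [Finset.card_univ, Fintype.card_fin] at h5
    rw [h5]
    have h6 : ∏ k, (‖al k‖ * ‖be i‖ + ‖-be k‖ * ‖al i‖) ≤
        ∏ k, (2 * Q * mz k * mz i * Real.exp (-min (lam a (z i)) (lam a (z k)))) := by
      refine Finset.prod_le_prod (fun k _ => by positivity) fun k _ => ?_
      rw [hmax k, norm_neg]
      have hi0 : 0 < mz i := by have := hmz1 i; linarith
      have hk0 : 0 < mz k := by have := hmz1 k; linarith
      set w := max (‖al i‖ / mz i) (‖al k‖ / mz k) with hw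
      have w1 : ‖al i‖ ≤ w * mz i := by
        rw [← div_le_iff₀ hi0]; exact le_max_left _ _
      have w2 : ‖al k‖ ≤ w * mz k := by
        rw [← div_le_iff₀ hk0]; exact le_max_right _ _
      have w0 : 0 ≤ w := (div_nonneg (norm_nonneg _) hi0.le).trans (le_max_left _ _)
      have t1 : ‖al k‖ * ‖be i‖ ≤ (w * mz k) * (Q * mz i) :=
        mul_le_mul w2 (hble i) (norm_nonneg _) (by positivity)
      have t2 : ‖be k‖ * ‖al i‖ ≤ (Q * mz k) * (w * mz i) :=
        mul_le_mul (hble k) w1 (norm_nonneg _) (by positivity)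
      nlinarith
    have h7 : ∏ k, (2 * Q * mz k * mz i * Real.exp (-min (lam a (z i)) (lam a (z k)))) =
        (2 * Q) ^ d * (∏ k, mz k) * mz i ^ d * E := by
      rw [Finset.prod_mul_distrib, Finset.prod_mul_distrib, Finset.prod_mul_distrib,
        Finset.prod_const, Finset.prod_const, Finset.card_univ, Fintype.card_fin]
    calc ‖A‖ * ∏ k, (‖al k‖ * ‖be i‖ + ‖-be k‖ * ‖al i‖) ≤
          ‖A‖ * ((2 * Q) ^ d * (∏ k, mz k) * mz i ^ d * E) := by
            rw [← h7]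
            exact mul_le_mul_of_nonneg_left h6 (norm_nonneg _)
      _ = (2 * Q) ^ d * Mh * mz i ^ d * E := by rw [hMh]; ring
  -- the floor
  have h8 : ∑ j ∈ Finset.range (d + 1), f0 * ‖be i‖ ^ (d - j) * ‖al i‖ ^ j ≤
      (d + 1) * (2 * Q) ^ d * Mh * mz i ^ d * E := by
    have h9 : ∀ j ∈ Finset.range (d + 1), f0 * ‖be i‖ ^ (d - j) * ‖al i‖ ^ j ≤
        f0 * (Q * mz i) ^ d := by
      intro j hj
      have h10 : d = (d - j) + j := by
        have := Finset.mem_range.1 hj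
        omega
      have hi0 : 0 ≤ Q * mz i := by have := hmz1 i; positivity
      calc f0 * ‖be i‖ ^ (d - j) * ‖al i‖ ^ j ≤ f0 * (Q * mz i) ^ (d - j) * (Q * mz i) ^ j := by
            have b1 := hble i
            have b2 := hale i
            gcongr
        _ = f0 * (Q * mz i) ^ d := by rw [mul_assoc, ← pow_add, ← h10]
    refine (Finset.sum_le_sum h9).trans ?_
    rw [Finset.sum_const, Finset.card_range, nsmul_eq_mul]
    have h11 : f0 ≤ Mh * E := by
      refine hf.trans ?_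
      have h12 : ∏ k, ‖al k‖ = (∏ k, mz k) * ∏ k, (‖al k‖ / mz k) := by
        rw [← Finset.prod_mul_distrib]
        refine Finset.prod_congr rfl fun k _ => ?_
        have := hmz1 k
        have : mz k ≠ 0 := by linarith
        field_simp
      have h13 : ∏ k, (‖al k‖ / mz k) ≤ E := by
        refine Finset.prod_le_prod (fun k _ => div_nonneg (norm_nonneg _) (by
          have := hmz1 k; linarith)) fun k _ => ?_
        rw [hmax k]
        exact le_max_right _ _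
      calc ‖A‖ * ∏ k, ‖al k‖ = ‖A‖ * (∏ k, mz k) * ∏ k, (‖al k‖ / mz k) := by rw [h12]; ring
        _ ≤ Mh * E := mul_le_mul_of_nonneg_left h13 hMh0
    have h14 : (Q * mz i) ^ d ≤ (2 * Q) ^ d * mz i ^ d := by
      rw [← mul_pow]
      have := hmz1 i
      gcongr
      linarith
    have h15 : 0 ≤ (Q * mz i) ^ d := by have := hmz1 i; positivity
    calc ((d + 1 : ℕ) : ℝ) * (f0 * (Q * mz i) ^ d)
        ≤ ((d + 1 : ℕ) : ℝ) * ((Mh * E) * ((2 * Q) ^ d * mz i ^ d)) := by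
          refine mul_le_mul_of_nonneg_left ?_ (Nat.cast_nonneg _)
          exact mul_le_mul h11 h14 h15 (by positivity)
      _ = (d + 1) * (2 * Q) ^ d * Mh * mz i ^ d * E := by push_cast; ring
  -- conclusion
  refine h2.trans ?_
  have h16 : ∑ j ∈ Finset.range (d + 1), ‖(tr d a G).coeff j‖ * ‖be i‖ ^ (d - j) * ‖al i‖ ^ j ≤
      B * (∑ j ∈ Finset.range (d + 1),
        ‖(tr d a (C A * ∏ i, (X - C (z i)))).coeff j‖ * ‖be i‖ ^ (d - j) * ‖al i‖ ^ j +
        ∑ j ∈ Finset.range (d + 1), f0 * ‖be i‖ ^ (d - j) * ‖al i‖ ^ j) := by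
    rw [← Finset.sum_add_distrib, Finset.mul_sum]
    refine Finset.sum_le_sum fun j hj => ?_
    have h17 := hc j (Nat.lt_succ_iff.1 (Finset.mem_range.1 hj))
    have h18 : max ‖(tr d a (C A * ∏ i, (X - C (z i)))).coeff j‖ f0 ≤
        ‖(tr d a (C A * ∏ i, (X - C (z i)))).coeff j‖ + f0 :=
      max_le (by linarith) (by linarith [norm_nonneg ((tr d a (C A * ∏ i, (X - C (z i)))).coeff j)])
    calc ‖(tr d a G).coeff j‖ * ‖be i‖ ^ (d - j) * ‖al i‖ ^ j
        ≤ (B * (‖(tr d a (C A * ∏ i, (X - C (z i)))).coeff j‖ + f0)) * ‖be i‖ ^ (d - j) *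
            ‖al i‖ ^ j := by
          have := h17.trans (mul_le_mul_of_nonneg_left h18 hB)
          gcongr
      _ = _ := by ring
  refine h16.trans ?_
  calc B * (_ + _) ≤ B * ((2 * Q) ^ d * Mh * mz i ^ d * E + (d + 1) * (2 * Q) ^ d * Mh * mz i ^ d * E) :=
        mul_le_mul_of_nonneg_left (add_le_add h3 h8) hB
    _ = B * ((d + 2) * (2 * Q) ^ d) * Mh * mz i ^ d * E := by ring

theorem sep_le (a b : ℤ × ℤ) [CharZero K] (hab : a.1 * b.2 ≠ a.2 * b.1) (z : K)
    (ha : (a.1 : K) - a.2 * z ≠ 0) (hb : (b.1 : K) - b.2 * z ≠ 0) :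
    min (lam a z) (lam b z) ≤ Real.log ((|(a.1 : ℝ)| + |(a.2 : ℝ)| + |(b.1 : ℝ)| + |(b.2 : ℝ)|) /
      ‖((a.1 * b.2 - a.2 * b.1 : ℤ) : K)‖) := by
  have hdet : ((a.1 * b.2 - a.2 * b.1 : ℤ) : K) ≠ 0 := by
    rw [Int.cast_ne_zero]
    exact sub_ne_zero.2 hab
  set dt := ‖((a.1 * b.2 - a.2 * b.1 : ℤ) : K)‖ with hdt
  have hdt0 : 0 < dt := norm_pos_iff.2 hdet
  set u := ‖(a.1 : K) - a.2 * z‖ with hu
  set w := ‖(b.1 : K) - b.2 * z‖ with hw
  have hu0 : 0 < u := norm_pos_iff.2 ha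
  have hw0 : 0 < w := norm_pos_iff.2 hb
  have h1 := norm_intCast_le' (K := K) a.1
  have h2 := norm_intCast_le' (K := K) a.2
  have h3 := norm_intCast_le' (K := K) b.1
  have h4 := norm_intCast_le' (K := K) b.2
  have hM0 : 0 < max u w := lt_max_of_lt_left hu0
  have e1 : ((a.1 * b.2 - a.2 * b.1 : ℤ) : K) =
      b.2 * ((a.1 : K) - a.2 * z) - a.2 * ((b.1 : K) - b.2 * z) := by push_cast; ring
  have e2 : ((a.1 * b.2 - a.2 * b.1 : ℤ) : K) * z =
      b.1 * ((a.1 : K) - a.2 * z) - a.1 * ((b.1 : K) - b.2 * z) := by push_cast; ring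
  have k1 : dt ≤ (|(b.2 : ℝ)| + |(a.2 : ℝ)|) * max u w := by
    rw [hdt, e1]
    refine (norm_sub_le _ _).trans ?_
    rw [norm_mul, norm_mul, add_mul]
    exact add_le_add (mul_le_mul h4 (le_max_left _ _) hu0.le (abs_nonneg _))
      (mul_le_mul h2 (le_max_right _ _) hw0.le (abs_nonneg _))
  have k2 : dt * ‖z‖ ≤ (|(b.1 : ℝ)| + |(a.1 : ℝ)|) * max u w := by
    rw [hdt, ← norm_mul, e2]
    refine (norm_sub_le _ _).trans ?_
    rw [norm_mul, norm_mul, add_mul]
    exact add_le_add (mul_le_mul h3 (le_max_left _ _) hu0.le (abs_nonneg _))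
      (mul_le_mul h1 (le_max_right _ _) hw0.le (abs_nonneg _))
  have k3 : dt * max 1 ‖z‖ ≤ (|(a.1 : ℝ)| + |(a.2 : ℝ)| + |(b.1 : ℝ)| + |(b.2 : ℝ)|) * max u w := by
    have g1 := abs_nonneg (a.1 : ℝ)
    have g2 := abs_nonneg (a.2 : ℝ)
    have g3 := abs_nonneg (b.1 : ℝ)
    have g4 := abs_nonneg (b.2 : ℝ)
    rcases le_total 1 ‖z‖ with h | h
    · rw [max_eq_right h]
      nlinarith
    · rw [max_eq_left h]
      nlinarith
  have hm0 : 0 < max 1 ‖z‖ := lt_max_of_lt_left one_pos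
  have k4 : min (lam a z) (lam b z) = Real.log (max 1 ‖z‖ / max u w) := by
    unfold lam
    rcases le_total u w with h | h
    · rw [max_eq_right h, min_eq_right]
      exact Real.log_le_log (div_pos hm0 hw0) (div_le_div_of_nonneg_left hm0.le hu0 h)
    · rw [max_eq_left h, min_eq_left]
      exact Real.log_le_log (div_pos hm0 hu0) (div_le_div_of_nonneg_left hm0.le hw0 h)
  rw [k4]
  refine Real.log_le_log (div_pos hm0 hM0) ?_
  rw [div_le_div_iff₀ hM0 hdt0]
  linarith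

/-- the local estimate for the resultant -/
theorem local_main [CharZero K] (d : ℕ) (D : Finset (ℤ × ℤ)) (hD0 : ∀ a ∈ D, a ≠ (0, 0))
    (hD : ∀ a ∈ D, ∀ b ∈ D, a ≠ b → a.1 * b.2 ≠ a.2 * b.1) (hne : D.Nonempty) :
    ∃ c : ℝ, ∀ (A : K) (z : Fin d → K) (G : K[X]) (B f0 : ℝ), A ≠ 0 → G.natDegree ≤ d → 0 < B →
      0 ≤ f0 → (∀ i, G.eval (z i) ≠ 0) → (∀ a ∈ D, ∀ i, (a.1 : K) - a.2 * z i ≠ 0) →
      (∀ a ∈ D, f0 ≤ ‖A‖ * ∏ i, ‖(a.1 : K) - a.2 * z i‖) →
      (∀ a ∈ D, ∀ j ≤ d, ‖(tr d a G).coeff j‖ ≤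
        B * max ‖(tr d a (C A * ∏ i, (X - C (z i)))).coeff j‖ f0) →
      d * Real.log ‖A‖ + ∑ i, Real.log ‖G.eval (z i)‖ ≤ c + d * Real.log B +
        2 * d * Real.log (‖A‖ * ∏ k, max 1 ‖z k‖) -
          ∑ i, ∑ k, ∑ a ∈ D, min (lam a (z i)) (lam a (z k)) := by
  classical
  set c1 : ℝ := ∑ a ∈ D, ∑ b ∈ D,
    |Real.log ((|(a.1 : ℝ)| + |(a.2 : ℝ)| + |(b.1 : ℝ)| + |(b.2 : ℝ)|) /
      ‖((a.1 * b.2 - a.2 * b.1 : ℤ) : K)‖)| with hc1
  have hc1le : ∀ a ∈ D, ∀ b ∈ D,
      Real.log ((|(a.1 : ℝ)| + |(a.2 : ℝ)| + |(b.1 : ℝ)| + |(b.2 : ℝ)|) /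
        ‖((a.1 * b.2 - a.2 * b.1 : ℤ) : K)‖) ≤ c1 := by
    intro a ha b hb
    refine (le_abs_self _).trans ?_
    refine (Finset.single_le_sum (f := fun b =>
      |Real.log ((|(a.1 : ℝ)| + |(a.2 : ℝ)| + |(b.1 : ℝ)| + |(b.2 : ℝ)|) /
        ‖((a.1 * b.2 - a.2 * b.1 : ℤ) : K)‖)|) (fun _ _ => abs_nonneg _) hb).trans ?_
    exact Finset.single_le_sum (f := fun a => ∑ b ∈ D,
      |Real.log ((|(a.1 : ℝ)| + |(a.2 : ℝ)| + |(b.1 : ℝ)| + |(b.2 : ℝ)|) /
        ‖((a.1 * b.2 - a.2 * b.1 : ℤ) : K)‖)|)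
      (fun _ _ => Finset.sum_nonneg fun _ _ => abs_nonneg _) ha
  have hc10 : 0 ≤ c1 := Finset.sum_nonneg fun _ _ => Finset.sum_nonneg fun _ _ => abs_nonneg _
  set c2 : ℝ := ∑ a ∈ D, (|Real.log ((d + 2) * (2 * (|(a.1 : ℝ)| + |(a.2 : ℝ)|)) ^ d)| +
    d * |Real.log ‖(a.1 : K) ^ 2 + (a.2 : K) ^ 2‖|) with hc2
  have hc2le : ∀ a ∈ D, |Real.log ((d + 2) * (2 * (|(a.1 : ℝ)| + |(a.2 : ℝ)|)) ^ d)| +
    d * |Real.log ‖(a.1 : K) ^ 2 + (a.2 : K) ^ 2‖| ≤ c2 := by
    intro a ha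
    exact Finset.single_le_sum (f := fun a =>
      |Real.log ((d + 2) * (2 * (|(a.1 : ℝ)| + |(a.2 : ℝ)|)) ^ d)| +
        d * |Real.log ‖(a.1 : K) ^ 2 + (a.2 : K) ^ 2‖|) (fun _ _ => by positivity) ha
  refine ⟨d * c2 + d * (D.card * (d * c1)), ?_⟩
  intro A z G B f0 hA hG hB hf0 hGz hz hf hc
  set Mh : ℝ := ‖A‖ * ∏ k, max 1 ‖z k‖ with hMh
  have hm1 : ∀ k, 0 < max 1 ‖z k‖ := fun k => lt_max_of_lt_left one_pos
  have hMh0 : 0 < Mh := mul_pos (norm_pos_iff.2 hA) (Finset.prod_pos fun k _ => hm1 k)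
  have key : ∀ i, Real.log ‖G.eval (z i)‖ ≤ c2 + D.card * (d * c1) + Real.log B + Real.log Mh +
      d * Real.log (max 1 ‖z i‖) - ∑ k, ∑ a ∈ D, min (lam a (z i)) (lam a (z k)) := by
    intro i
    obtain ⟨a, ha, hmax⟩ := Finset.exists_max_image D (fun a => lam a (z i)) hne
    have h1 := value_le a (hD0 a ha) A z (hz a ha) G hG B f0 hB.le hf0 (hf a ha) (hc a ha) i
    have hQ0 : 0 < |(a.1 : ℝ)| + |(a.2 : ℝ)| := by
      by_contra h
      push Not at h
      have g1 := abs_nonneg (a.1 : ℝ)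
      have g2 := abs_nonneg (a.2 : ℝ)
      apply hD0 a ha
      refine Prod.ext ?_ ?_
      · have : |(a.1 : ℝ)| = 0 := by linarith
        exact_mod_cast abs_eq_zero.1 this
      · have : |(a.2 : ℝ)| = 0 := by linarith
        exact_mod_cast abs_eq_zero.1 this
    have hΔ : (a.1 : K) ^ 2 + (a.2 : K) ^ 2 ≠ 0 := by
      have h2 : (((a.1 ^ 2 + a.2 ^ 2 : ℤ)) : K) ≠ 0 := by
        rw [Int.cast_ne_zero]
        intro h
        apply hD0 a ha
        have h3 : a.1 ^ 2 = 0 := by nlinarith [sq_nonneg a.1, sq_nonneg a.2]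
        have h4 : a.2 ^ 2 = 0 := by nlinarith [sq_nonneg a.1, sq_nonneg a.2]
        exact Prod.ext (pow_eq_zero_iff (two_ne_zero) |>.1 h3) (pow_eq_zero_iff (two_ne_zero) |>.1 h4)
      push_cast at h2
      exact h2
    have hΔ0 : 0 < ‖(a.1 : K) ^ 2 + (a.2 : K) ^ 2‖ := norm_pos_iff.2 hΔ
    have hG0 : 0 < ‖G.eval (z i)‖ := norm_pos_iff.2 (hGz i)
    have h2 := Real.log_le_log (mul_pos (pow_pos hΔ0 d) hG0) h1
    have hd2 : (0 : ℝ) < (d + 2) * (2 * (|(a.1 : ℝ)| + |(a.2 : ℝ)|)) ^ d := by positivity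
    rw [Real.log_mul (pow_pos hΔ0 d).ne' hG0.ne', Real.log_pow, ← Real.exp_sum,
      Real.log_mul (by have := hm1 i; positivity) (Real.exp_pos _).ne', Real.log_exp,
      Real.log_mul (by positivity) (by have := hm1 i; positivity),
      Real.log_mul (by positivity) hMh0.ne', Real.log_mul hB.ne' hd2.ne', Real.log_pow] at h2
    -- only one point is close
    have h3 : ∑ k, ∑ b ∈ D, min (lam b (z i)) (lam b (z k)) ≤
        ∑ k, min (lam a (z i)) (lam a (z k)) + D.card * (d * c1) := by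
      have h4 : ∀ k, ∑ b ∈ D, min (lam b (z i)) (lam b (z k)) ≤
          min (lam a (z i)) (lam a (z k)) + D.card * c1 := by
        intro k
        rw [← Finset.add_sum_erase _ _ ha]
        refine add_le_add le_rfl ?_
        calc ∑ b ∈ D.erase a, min (lam b (z i)) (lam b (z k)) ≤ ∑ b ∈ D.erase a, c1 := by
              refine Finset.sum_le_sum fun b hb => ?_
              have hbD := Finset.mem_of_mem_erase hb
              have hba := Finset.ne_of_mem_erase hb
              refine (min_le_left _ _).trans ?_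
              have h5 := sep_le a b (hD a ha b hbD (Ne.symm hba)) (z i) (hz a ha i) (hz b hbD i)
              have h6 : min (lam a (z i)) (lam b (z i)) = lam b (z i) := min_eq_right (hmax b hbD)
              rw [h6] at h5
              exact h5.trans (hc1le a ha b hbD)
          _ = ((D.erase a).card : ℝ) * c1 := by rw [Finset.sum_const, nsmul_eq_mul]
          _ ≤ D.card * c1 := by
              refine mul_le_mul_of_nonneg_right ?_ hc10
              exact_mod_cast Finset.card_le_card (Finset.erase_subset _ _)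
      refine (Finset.sum_le_sum fun k _ => h4 k).trans (le_of_eq ?_)
      rw [Finset.sum_add_distrib, Finset.sum_const, Finset.card_univ, Fintype.card_fin,
        nsmul_eq_mul]
      ring
    have h7 := hc2le a ha
    have h8 := le_abs_self (Real.log ((d + 2) * (2 * (|(a.1 : ℝ)| + |(a.2 : ℝ)|)) ^ d))
    have h9 := neg_abs_le (Real.log ‖(a.1 : K) ^ 2 + (a.2 : K) ^ 2‖)
    have h10 : -((d : ℝ) * |Real.log ‖(a.1 : K) ^ 2 + (a.2 : K) ^ 2‖|) ≤
        d * Real.log ‖(a.1 : K) ^ 2 + (a.2 : K) ^ 2‖ := by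
      rw [← mul_neg]
      exact mul_le_mul_of_nonneg_left h9 (Nat.cast_nonneg d)
    rw [Finset.sum_neg_distrib] at h2
    linarith
  have h1 := Finset.sum_le_sum fun i (_ : i ∈ (Finset.univ : Finset (Fin d))) => key i
  have h2 : Real.log Mh = Real.log ‖A‖ + ∑ k, Real.log (max 1 ‖z k‖) := by
    rw [hMh, Real.log_mul (norm_pos_iff.2 hA).ne' (Finset.prod_pos fun k _ => hm1 k).ne',
      Real.log_prod (fun k _ => (hm1 k).ne')]
  simp only [Finset.sum_sub_distrib, Finset.sum_add_distrib, Finset.sum_const, Finset.card_univ,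
    Fintype.card_fin, nsmul_eq_mul, ← Finset.mul_sum] at h1
  have h3 : (d : ℝ) * Real.log Mh = d * Real.log ‖A‖ + d * ∑ k, Real.log (max 1 ‖z k‖) := by
    rw [h2]; ring
  linarith

end Norm

end Pool.Agent.Run7.h860.Ns
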